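import Mathlib

/-!
# Sums of vectors with unimodular coefficients
-/

set_option autoImplicit false

namespace Pool.Agent.Y774.JD

open Filter Topology Finset

/-- A point of the closed unit disc is the mean of two points of the circle. -/
lemma two_points {z : ℂ} (hz : ‖z‖ ≤ 1) : ∃ u w : ℂ, ‖u‖ = 1 ∧ ‖w‖ = 1 ∧ z = (u + w) / 2 := by
  set φ := Real.arccos ‖z‖ with hφ
  have hcos : Real.cos φ = ‖z‖ := Real.cos_arccos (by linarith [norm_nonneg z]) hz
  refine ⟨Complex.exp ((Complex.arg z + φ : ℝ) * Complex.I),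
    Complex.exp ((Complex.arg z - φ : ℝ) * Complex.I), Complex.norm_exp_ofReal_mul_I _,
    Complex.norm_exp_ofReal_mul_I _, ?_⟩
  have h1 : Complex.exp ((Complex.arg z + φ : ℝ) * Complex.I) =
      Complex.exp (Complex.arg z * Complex.I) * Complex.exp (φ * Complex.I) := by
    rw [← Complex.exp_add]
    congr 1
    push_cast
    ring
  have h2 : Complex.exp ((Complex.arg z - φ : ℝ) * Complex.I) =
      Complex.exp (Complex.arg z * Complex.I) * Complex.exp (-φ * Complex.I) := by
    rw [← Complex.exp_add]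
    congr 1
    push_cast
    ring
  rw [h1, h2, ← mul_add, mul_div_assoc]
  have h3 : (Complex.exp (φ * Complex.I) + Complex.exp (-φ * Complex.I)) / 2 = (‖z‖ : ℂ) := by
    rw [← hcos, Complex.ofReal_cos, Complex.cos]
  rw [h3, mul_comm]
  exact (Complex.norm_mul_exp_arg_mul_I z).symm

/-- The coefficients can be moved to the circle. -/
lemma round {V : Type*} [NormedAddCommGroup V] [InnerProductSpace ℂ V] (c : ℕ → V) (z : ℕ → ℂ)
    (hz : ∀ p, ‖z p‖ ≤ 1) (F : Finset ℕ) :
    ∃ u : ℕ → ℂ, (∀ p, ‖u p‖ = 1) ∧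
      ‖∑ p ∈ F, (z p - u p) • c p‖ ^ 2 ≤ ∑ p ∈ F, ‖c p‖ ^ 2 := by
  classical
  induction F using Finset.induction_on with
  | empty => exact ⟨fun _ => 1, fun _ => norm_one, by simp⟩
  | insert p F hp ih =>
    obtain ⟨u, hu, h⟩ := ih
    obtain ⟨u₁, u₂, h₁, h₂, hzz⟩ := two_points (hz p)
    set S := ∑ q ∈ F, (z q - u q) • c q with hS
    set d := z p - u₁ with hd
    have hd1 : ‖d‖ ≤ 1 := by
      have : d = (u₂ - u₁) / 2 := by
        rw [hd, hzz]
        ring
      rw [this, norm_div]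
      have h3 := norm_sub_le u₂ u₁
      rw [h₁, h₂] at h3
      norm_num at h3 ⊢
      linarith
    have hd2 : z p - u₂ = -d := by
      rw [hd, hzz]
      ring
    have key : ∀ w : ℂ, ‖w‖ = 1 → ‖z p - w‖ ≤ 1 → RCLike.re (inner ℂ S ((z p - w) • c p)) ≤ 0 →
        ∃ u : ℕ → ℂ, (∀ p, ‖u p‖ = 1) ∧
        ‖∑ q ∈ insert p F, (z q - u q) • c q‖ ^ 2 ≤ ∑ q ∈ insert p F, ‖c q‖ ^ 2 := by
      intro w hw hw1 hre
      refine ⟨Function.update u p w, fun q => ?_, ?_⟩
      · by_cases hq : q = p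
        · subst hq
          rw [Function.update_self]
          exact hw
        · rw [Function.update_of_ne hq]
          exact hu q
      · rw [sum_insert hp, sum_insert hp, Function.update_self, add_comm]
        have h3 : ∑ q ∈ F, (z q - Function.update u p w q) • c q = S := by
          rw [hS]
          refine sum_congr rfl fun q hq => ?_
          rw [Function.update_of_ne]
          rintro rfl
          exact hp hq
        rw [h3, @norm_add_sq ℂ]
        have h4 : ‖(z p - w) • c p‖ ^ 2 ≤ ‖c p‖ ^ 2 := by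
          rw [norm_smul]
          refine pow_le_pow_left₀ (by positivity) ?_ 2
          calc ‖z p - w‖ * ‖c p‖ ≤ 1 * ‖c p‖ := mul_le_mul_of_nonneg_right hw1 (norm_nonneg _)
            _ = _ := one_mul _
        linarith
    rcases le_total (RCLike.re (inner ℂ S (d • c p))) 0 with h3 | h3
    · exact key u₁ h₁ hd1 h3
    · refine key u₂ h₂ (by rw [hd2, norm_neg]; exact hd1) ?_
      rw [hd2, neg_smul, inner_neg_right, map_neg]
      linarith

section

variable {κ : Type} [Fintype κ]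

/-- The pairing. -/
noncomputable def pr (m x : κ → ℂ) : ℂ := ∑ k, m k * x k

/-- Uniform divergence on the unit sphere. -/
lemma unif_div (c : ℕ → κ → ℂ) (h : ∀ m : κ → ℂ, m ≠ 0 → ¬ Summable fun p => ‖pr m (c p)‖)
    (R : ℝ) : ∃ n : ℕ, ∀ m : κ → ℂ, ‖m‖ = 1 → R < ∑ p ∈ range n, ‖pr m (c p)‖ := by
  have hcont : ∀ n : ℕ, Continuous fun m : κ → ℂ => ∑ p ∈ range n, ‖pr m (c p)‖ := by
    intro n
    unfold pr
    fun_prop
  have hcov : Metric.sphere (0 : κ → ℂ) 1 ⊆
      ⋃ n : ℕ, {m : κ → ℂ | R < ∑ p ∈ range n, ‖pr m (c p)‖} := by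
    intro m hm
    rw [mem_sphere_zero_iff_norm] at hm
    have hm0 : m ≠ 0 := by
      rintro rfl
      simp at hm
    have h1 := (not_summable_iff_tendsto_nat_atTop_of_nonneg (fun p => norm_nonneg _)).1 (h m hm0)
    obtain ⟨n, hn⟩ := (h1.eventually (eventually_gt_atTop R)).exists
    exact Set.mem_iUnion.2 ⟨n, hn⟩
  have hdir : Directed (· ⊆ ·) fun n : ℕ => {m : κ → ℂ | R < ∑ p ∈ range n, ‖pr m (c p)‖} := by
    refine (monotone_nat_of_le_succ fun n m hm => ?_).directed_le
    have hm' : R < ∑ p ∈ range n, ‖pr m (c p)‖ := hm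
    show R < ∑ p ∈ range (n + 1), ‖pr m (c p)‖
    rw [sum_range_succ]
    linarith [norm_nonneg (pr m (c n))]
  obtain ⟨n, hn⟩ := (isCompact_sphere (0 : κ → ℂ) 1).elim_directed_cover _
    (fun n => isOpen_lt continuous_const (hcont n)) hcov hdir
  exact ⟨n, fun m hm => hn (mem_sphere_zero_iff_norm.2 hm)⟩

/-- The sums with coefficients in the disc cover everything. -/
lemma cover (c : ℕ → κ → ℂ) (h : ∀ m : κ → ℂ, m ≠ 0 → ¬ Summable fun p => ‖pr m (c p)‖)
    (v : κ → ℂ) : ∃ n : ℕ, ∃ z : ℕ → ℂ, (∀ p, ‖z p‖ ≤ 1) ∧ ∑ p ∈ range n, z p • c p = v := by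
  classical
  obtain ⟨n, hn⟩ := unif_div c h (Fintype.card κ * ‖v‖)
  refine ⟨n, ?_⟩
  set B : Set (ℕ → ℂ) := Set.pi Set.univ fun _ => Metric.closedBall (0 : ℂ) 1 with hB
  set L : (ℕ → ℂ) →ₗ[ℝ] (κ → ℂ) :=
    { toFun := fun z => ∑ p ∈ range n, z p • c p
      map_add' := fun x y => by
        simp only [Pi.add_apply, add_smul, sum_add_distrib]
      map_smul' := fun r x => by
        simp only [Pi.smul_apply, RingHom.id_apply, smul_sum, smul_assoc] } with hL
  have hLc : Continuous L := by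
    show Continuous fun z : ℕ → ℂ => ∑ p ∈ range n, z p • c p
    fun_prop
  have hconv : Convex ℝ (L '' B) :=
    (convex_pi fun _ _ => convex_closedBall 0 1).linear_image L
  have hcomp : IsCompact (L '' B) :=
    (isCompact_univ_pi fun _ => isCompact_closedBall 0 1).image hLc
  have hmem : v ∈ L '' B := by
    by_contra hv
    obtain ⟨f, u, h1, h2⟩ := RCLike.geometric_hahn_banach_closed_point (𝕜 := ℂ) hconv
      hcomp.isClosed hv
    set m : κ → ℂ := fun k => f (Pi.single k 1) with hm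
    have hf : ∀ x : κ → ℂ, f x = pr m x := by
      intro x
      have hx : x = ∑ k, x k • (Pi.single k (1 : ℂ) : κ → ℂ) := by
        funext j
        simp [Finset.sum_apply, Pi.single_apply]
      conv_lhs => rw [hx]
      rw [map_sum]
      unfold pr
      refine sum_congr rfl fun k _ => ?_
      rw [map_smul, smul_eq_mul, mul_comm]
    have h0 : (0 : κ → ℂ) ∈ L '' B := ⟨0, fun _ _ => by simp, map_zero L⟩
    have hu0 : 0 < u := by
      have := h1 0 h0
      simpa using this
    have hm0 : m ≠ 0 := by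
      intro hm0
      rw [hf, hm0] at h2
      simp only [pr, Pi.zero_apply, zero_mul, sum_const_zero, map_zero] at h2
      linarith
    have hM : 0 < ‖m‖ := norm_pos_iff.2 hm0
    -- the maximum over the set
    have h3 : ∑ p ∈ range n, ‖pr m (c p)‖ < u := by
      set z : ℕ → ℂ := fun p => if pr m (c p) = 0 then 0 else
        (starRingEnd ℂ) (pr m (c p)) / ‖pr m (c p)‖ with hz
      have hz1 : ∀ p, ‖z p‖ ≤ 1 := by
        intro p
        simp only [hz]
        split_ifs with h0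
        · simp
        · rw [norm_div, RCLike.norm_conj, Complex.norm_real, norm_norm, div_self]
          exact norm_ne_zero_iff.2 h0
      have h4 := h1 (L z) ⟨z, fun p _ => by simpa using hz1 p, rfl⟩
      have h5 : f (L z) = ((∑ p ∈ range n, ‖pr m (c p)‖ : ℝ) : ℂ) := by
        show f (∑ p ∈ range n, z p • c p) = _
        rw [map_sum]
        push_cast
        refine sum_congr rfl fun p _ => ?_
        rw [map_smul, smul_eq_mul, hf]
        simp only [hz]
        split_ifs with h0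
        · rw [h0]
          simp
        · have h6 : ((‖pr m (c p)‖ : ℝ) : ℂ) ≠ 0 := by
            exact_mod_cast norm_ne_zero_iff.2 h0
          rw [div_mul_eq_mul_div, mul_comm, Complex.mul_conj, Complex.normSq_eq_norm_sq]
          push_cast
          field_simp
      rw [h5] at h4
      simpa using h4
    have h4 := hn ((‖m‖⁻¹ : ℂ) • m) (by
      rw [norm_smul, norm_inv, Complex.norm_real, norm_norm, inv_mul_cancel₀ hM.ne'])
    have h5 : ∀ p, ‖pr ((‖m‖⁻¹ : ℂ) • m) (c p)‖ = ‖m‖⁻¹ * ‖pr m (c p)‖ := by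
      intro p
      have : pr ((‖m‖⁻¹ : ℂ) • m) (c p) = (‖m‖⁻¹ : ℂ) * pr m (c p) := by
        unfold pr
        rw [mul_sum]
        refine sum_congr rfl fun k _ => ?_
        simp only [Pi.smul_apply, smul_eq_mul]
        ring
      rw [this, norm_mul, norm_inv, Complex.norm_real, norm_norm]
    simp only [h5] at h4
    rw [← mul_sum] at h4
    have h6 : RCLike.re (f v) ≤ ‖m‖ * (Fintype.card κ * ‖v‖) := by
      refine (RCLike.re_le_norm _).trans ?_
      rw [hf]
      unfold pr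
      refine (norm_sum_le _ _).trans ?_
      calc ∑ k, ‖m k * v k‖ ≤ ∑ _k : κ, ‖m‖ * ‖v‖ := by
            refine sum_le_sum fun k _ => ?_
            rw [norm_mul]
            exact mul_le_mul (norm_le_pi_norm m k) (norm_le_pi_norm v k) (norm_nonneg _) hM.le
        _ = _ := by
            rw [sum_const, card_univ, nsmul_eq_mul]
            ring
    have h7 : Fintype.card κ * ‖v‖ * ‖m‖ < ∑ p ∈ range n, ‖pr m (c p)‖ := by
      rw [inv_mul_eq_div, lt_div_iff₀ hM] at h4
      exact h4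
    linarith
  obtain ⟨z, hz, hz2⟩ := hmem
  refine ⟨z, fun p => ?_, hz2⟩
  have := hz p (Set.mem_univ p)
  simpa using this

/-- **Unimodular coefficients.** -/
theorem unimodular (c : ℕ → κ → ℂ) (h : ∀ m : κ → ℂ, m ≠ 0 → ¬ Summable fun p => ‖pr m (c p)‖)
    {ε : ℝ} (hε : 0 ≤ ε) (hsq : ∀ n : ℕ, ∑ p ∈ range n, ∑ k, ‖c p k‖ ^ 2 ≤ ε ^ 2) (v : κ → ℂ) :
    ∃ n : ℕ, ∃ u : ℕ → ℂ, (∀ p, ‖u p‖ = 1) ∧
      ∀ k, ‖∑ p ∈ range n, u p * c p k - v k‖ ≤ ε := by
  obtain ⟨n, z, hz, hsum⟩ := cover c h v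
  obtain ⟨u, hu, hle⟩ := round (V := EuclideanSpace ℂ κ) (fun p => WithLp.toLp 2 (c p)) z hz (range n)
  refine ⟨n, u, hu, fun k => ?_⟩
  have h1 : ∑ p ∈ range n, u p * c p k - v k =
      -((∑ p ∈ range n, (z p - u p) • (WithLp.toLp 2 (c p) : EuclideanSpace ℂ κ)) k) := by
    have h2 : v k = ∑ p ∈ range n, z p * c p k := by
      rw [← hsum, Finset.sum_apply]
      rfl
    rw [h2, ← sum_sub_distrib]
    have h3 : (∑ p ∈ range n, (z p - u p) • (WithLp.toLp 2 (c p) : EuclideanSpace ℂ κ)) k =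
        ∑ p ∈ range n, (z p - u p) * c p k := by
      simp [Finset.sum_apply]
    rw [h3, ← sum_neg_distrib]
    exact sum_congr rfl fun p _ => by ring
  rw [h1, norm_neg]
  have h2 : ‖(∑ p ∈ range n, (z p - u p) • (WithLp.toLp 2 (c p) : EuclideanSpace ℂ κ)) k‖ ≤
      ‖∑ p ∈ range n, (z p - u p) • (WithLp.toLp 2 (c p) : EuclideanSpace ℂ κ)‖ :=
    PiLp.norm_apply_le _ k
  refine h2.trans ?_
  refine (abs_le_of_sq_le_sq' (a := ‖_‖) ?_ hε).2
  refine hle.trans (le_trans (le_of_eq (sum_congr rfl fun p _ => ?_)) (hsq n))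
  rw [EuclideanSpace.norm_sq_eq]

end

end Pool.Agent.Y774.JD
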