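import Pool.Agent.Y774.FP.Win
import Pool.Agent.Y774.JD.Conv

/-!
# Means over windows of products of periodic functions
-/

set_option autoImplicit false

namespace Pool.Agent.Y774.JD

open Filter Topology MeasureTheory Finset Pool.Agent.W350.Edge Pool.Agent.Y774.MD
open scoped ENNReal

/-- `f` has the mean value `ℓ` over the windows. -/
def Mn {ι : Type} (ℱ : Filter ι) (a T : ι → ℝ) (f : ℝ → ℂ) (ℓ : ℂ) : Prop :=
  Tendsto (fun i => (∫ τ in (a i)..(a i + T i), f τ) / T i) ℱ (𝓝 ℓ)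

/-- Bounded measurable functions. -/
def Bd (f : ℝ → ℂ) : Prop := Measurable f ∧ ∃ B : ℝ, ∀ τ, ‖f τ‖ ≤ B

lemma Bd.int {f : ℝ → ℂ} (h : Bd f) (a b : ℝ) : IntervalIntegrable f volume a b := by
  obtain ⟨h1, B, hB⟩ := h
  exact intInt_of_bound h1.aemeasurable hB a b

lemma Bd.mul {f g : ℝ → ℂ} (hf : Bd f) (hg : Bd g) : Bd fun τ => f τ * g τ := by
  obtain ⟨h1, B, hB⟩ := hf
  obtain ⟨h2, B', hB'⟩ := hg
  refine ⟨h1.mul h2, B * B', fun τ => ?_⟩
  rw [norm_mul]
  exact mul_le_mul (hB τ) (hB' τ) (norm_nonneg _) ((norm_nonneg _).trans (hB τ))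

lemma Bd.const (c : ℂ) : Bd fun _ => c := ⟨measurable_const, ‖c‖, fun _ => le_rfl⟩

lemma Bd.prod {F : Finset ℕ} {φ : ℕ → ℝ → ℂ} (h : ∀ p ∈ F, Bd (φ p)) :
    Bd fun τ => ∏ p ∈ F, φ p τ := by
  classical
  induction F using Finset.induction_on with
  | empty => simpa using Bd.const 1
  | insert p F hp ih =>
    simp only [prod_insert hp]
    exact (h p (mem_insert_self _ _)).mul (ih fun q hq => h q (mem_insert_of_mem hq))

variable {ι : Type} {ℱ : Filter ι} {a T : ι → ℝ}

lemma Mn.add {f g : ℝ → ℂ} {x y : ℂ} (hf : Mn ℱ a T f x) (hg : Mn ℱ a T g y) (bf : Bd f)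
    (bg : Bd g) : Mn ℱ a T (fun τ => f τ + g τ) (x + y) := by
  refine (Tendsto.add hf hg).congr fun i => ?_
  rw [← add_div, ← intervalIntegral.integral_add (bf.int _ _) (bg.int _ _)]

lemma Mn.smul {f : ℝ → ℂ} {x : ℂ} (hf : Mn ℱ a T f x) (c : ℂ) :
    Mn ℱ a T (fun τ => c * f τ) (c * x) := by
  refine (Tendsto.const_mul c hf).congr fun i => ?_
  rw [intervalIntegral.integral_const_mul, mul_div_assoc]

lemma Bd.add {f g : ℝ → ℂ} (hf : Bd f) (hg : Bd g) : Bd fun τ => f τ + g τ := by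
  obtain ⟨h1, B, hB⟩ := hf
  obtain ⟨h2, B', hB'⟩ := hg
  exact ⟨h1.add h2, B + B', fun τ => (norm_add_le _ _).trans (add_le_add (hB τ) (hB' τ))⟩

lemma Bd.sum {α : Type*} {F : Finset α} {φ : α → ℝ → ℂ} (h : ∀ p ∈ F, Bd (φ p)) :
    Bd fun τ => ∑ p ∈ F, φ p τ := by
  classical
  induction F using Finset.induction_on with
  | empty => simpa using Bd.const 0
  | insert p F hp ih =>
    simp only [sum_insert hp]
    exact (h p (mem_insert_self _ _)).add (ih fun q hq => h q (mem_insert_of_mem hq))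

lemma Mn.sum {α : Type*} {F : Finset α} {φ : α → ℝ → ℂ} {x : α → ℂ} (b : ∀ p ∈ F, Bd (φ p))
    (h : ∀ p ∈ F, Mn ℱ a T (φ p) (x p)) : Mn ℱ a T (fun τ => ∑ p ∈ F, φ p τ) (∑ p ∈ F, x p) := by
  classical
  induction F using Finset.induction_on with
  | empty =>
    refine tendsto_const_nhds.congr fun i => ?_
    simp
  | insert p F hp ih =>
    simp only [sum_insert hp]
    exact (h p (mem_insert_self _ _)).add (ih (fun q hq => b q (mem_insert_of_mem hq))
      fun q hq => h q (mem_insert_of_mem hq)) (b p (mem_insert_self _ _))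
      (Bd.sum fun q hq => b q (mem_insert_of_mem hq))

lemma Mn.congr {f g : ℝ → ℂ} {x : ℂ} (hf : Mn ℱ a T f x) (h : ∀ τ, f τ = g τ) :
    Mn ℱ a T g x := by
  rwa [show g = f from funext fun τ => (h τ).symm]

/-- The mean over a period. -/
noncomputable def J (φ : ℕ → ℝ → ℂ) (p : ℕ) : ℂ :=
  (∫ τ in (0 : ℝ)..(2 * Real.pi / Real.log p), φ p τ) / (2 * Real.pi / Real.log p : ℝ)

lemma norm_J {φ : ℕ → ℝ → ℂ} {p : ℕ} (hp : p.Prime) (hb : ∀ τ, ‖φ p τ‖ ≤ 1) : ‖J φ p‖ ≤ 1 := by
  have hl : 0 < Real.log p := Real.log_pos (by exact_mod_cast hp.one_lt)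
  have hP : 0 < 2 * Real.pi / Real.log p := by positivity
  unfold J
  rw [norm_div, Complex.norm_real, Real.norm_of_nonneg hP.le, div_le_one hP]
  have := intervalIntegral.norm_integral_le_of_norm_le_const (C := 1) (f := φ p) (a := 0)
    (b := 2 * Real.pi / Real.log p) fun τ _ => hb τ
  rw [sub_zero, abs_of_pos hP, one_mul] at this
  exact this

lemma mean_zero {q : ℕ} (hT : Tendsto T ℱ atTop) (hq : q.Prime) {g : ℝ → ℂ}
    (hg : FP.Cl ℱ a T q fun _ => g) (hgb : ∀ τ, ‖g τ‖ ≤ 1)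
    (φ : ℝ → ℂ) (hm : Measurable φ) (hb : ∀ τ, ‖φ τ‖ ≤ 1)
    (hper : Function.Periodic φ (2 * Real.pi / Real.log q))
    (h0 : ∫ τ in (0 : ℝ)..(2 * Real.pi / Real.log q), φ τ = 0) :
    Mn ℱ a T (fun τ => φ τ * g τ) 0 := by
  unfold Mn
  rw [Metric.tendsto_nhds]
  intro ε hε
  filter_upwards [FP.indep hT hq hg (fun _ => hgb) φ hm hb hper (half_pos hε),
    hT.eventually (eventually_gt_atTop (0 : ℝ))] with i hi hTi
  rw [h0, zero_div, norm_zero, zero_add] at hi
  rw [dist_zero_right, norm_div, Complex.norm_real, Real.norm_of_nonneg hTi.le,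
    div_lt_iff₀ hTi]
  refine hi.trans_lt ?_
  nlinarith

/-- **The mean of a product of periodic functions.** -/
theorem mean_prod (hT : Tendsto T ℱ atTop) (F : Finset ℕ) (hF : ∀ p ∈ F, p.Prime)
    (φ : ℕ → ℝ → ℂ) (hm : ∀ p, Measurable (φ p)) (hb : ∀ p τ, ‖φ p τ‖ ≤ 1)
    (hper : ∀ p, p.Prime → Function.Periodic (φ p) (2 * Real.pi / Real.log p)) :
    Mn ℱ a T (fun τ => ∏ p ∈ F, φ p τ) (∏ p ∈ F, J φ p) := by
  classical
  induction F using Finset.induction_on with
  | empty =>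
    unfold Mn
    simp only [prod_empty]
    refine tendsto_const_nhds.congr' ?_
    filter_upwards [hT.eventually (eventually_gt_atTop (0 : ℝ))] with i hTi
    simp only [intervalIntegral.integral_const, add_sub_cancel_left]
    rw [Complex.real_smul, mul_one, div_self]
    exact_mod_cast hTi.ne'
  | insert q F hqF ih =>
    have hq := hF q (mem_insert_self _ _)
    have hF' : ∀ p ∈ F, p.Prime := fun p hp => hF p (mem_insert_of_mem hp)
    have ih' := ih hF'
    have hcl : FP.Cl ℱ a T q (fun _ τ => ∏ p ∈ F, φ p τ) :=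
      FP.Cl.prod hT hq F (fun p hp => ⟨hF' p hp, fun h => hqF (h ▸ hp)⟩) φ hm hb hper
    have hgb : ∀ τ, ‖∏ p ∈ F, φ p τ‖ ≤ 1 := by
      intro τ
      rw [norm_prod]
      exact prod_le_one (fun _ _ => norm_nonneg _) fun p _ => hb p τ
    have hl : 0 < Real.log q := Real.log_pos (by exact_mod_cast hq.one_lt)
    have hP : 0 < 2 * Real.pi / Real.log q := by positivity
    have hJ := norm_J (φ := φ) hq (hb q)
    set ψ : ℝ → ℂ := fun τ => (φ q τ - J φ q) / 2 with hψ
    have h1 : Mn ℱ a T (fun τ => ψ τ * ∏ p ∈ F, φ p τ) 0 := by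
      refine mean_zero hT hq hcl hgb ψ (((hm q).sub_const _).div_const _) (fun τ => ?_)
        (fun τ => ?_) ?_
      · simp only [hψ]
        rw [norm_div]
        have h2 := norm_sub_le (φ q τ) (J φ q)
        have h3 := hb q τ
        norm_num
        linarith
      · simp only [hψ]
        rw [hper q hq τ]
      · simp only [hψ]
        rw [intervalIntegral.integral_div, intervalIntegral.integral_sub
          (intInt_of_bound (hm q).aemeasurable (hb q) _ _) intervalIntegrable_const,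
          intervalIntegral.integral_const, sub_zero]
        unfold J
        have hPc : ((2 * Real.pi / Real.log q : ℝ) : ℂ) ≠ 0 := by exact_mod_cast hP.ne'
        rw [Complex.real_smul, mul_div_cancel₀ _ hPc, sub_self, zero_div]
    have b1 : Bd fun τ => ∏ p ∈ F, φ p τ := Bd.prod fun p _ => ⟨hm p, 1, hb p⟩
    have b2 : Bd ψ := by
      refine ⟨((hm q).sub_const _).div_const _, 1, fun τ => ?_⟩
      simp only [hψ]
      rw [norm_div]
      have h2 := norm_sub_le (φ q τ) (J φ q)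
      have h3 := hb q τ
      norm_num
      linarith
    have h2 := (h1.smul 2).add (ih'.smul (J φ q)) ((Bd.const 2).mul (b2.mul b1))
      ((Bd.const _).mul b1)
    rw [mul_zero, zero_add] at h2
    rw [prod_insert hqF]
    refine h2.congr fun τ => ?_
    rw [prod_insert hqF]
    simp only [hψ]
    ring

/-- The function `p^{-iτ}`. -/
noncomputable def ee (p : ℕ) (τ : ℝ) : ℂ := Complex.exp (-(τ * Real.log p) * Complex.I)

lemma norm_ee (p : ℕ) (τ : ℝ) : ‖ee p τ‖ = 1 := by
  unfold ee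
  rw [Complex.norm_exp]
  have : (-((τ : ℂ) * (Real.log p : ℂ)) * Complex.I).re = 0 := by
    rw [Complex.mul_I_re, ← Complex.ofReal_mul, ← Complex.ofReal_neg, Complex.ofReal_im,
      neg_zero]
  rw [this, Real.exp_zero]

lemma continuous_ee (p : ℕ) : Continuous (ee p) := by
  unfold ee
  fun_prop

lemma ee_periodic {p : ℕ} (hp : p.Prime) : Function.Periodic (ee p) (2 * Real.pi / Real.log p) := by
  intro τ
  have hl : 0 < Real.log p := Real.log_pos (by exact_mod_cast hp.one_lt)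
  unfold ee
  rw [Complex.exp_eq_exp_iff_exists_int]
  refine ⟨-1, ?_⟩
  have h1 : (τ + 2 * Real.pi / Real.log p) * Real.log p = τ * Real.log p + 2 * Real.pi := by
    field_simp
  have h2 : ((τ + 2 * Real.pi / Real.log p : ℝ) : ℂ) * ((Real.log p : ℝ) : ℂ) =
      (τ : ℂ) * ((Real.log p : ℝ) : ℂ) + 2 * Real.pi := by
    exact_mod_cast h1
  push_cast at h2 ⊢
  linear_combination (-Complex.I) * h2

lemma int_ee {p : ℕ} (hp : p.Prime) :
    ∫ τ in (0 : ℝ)..(2 * Real.pi / Real.log p), ee p τ = 0 := by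
  have hl : 0 < Real.log p := Real.log_pos (by exact_mod_cast hp.one_lt)
  have hc : (-(Real.log p : ℂ) * Complex.I : ℂ) ≠ 0 := by
    refine mul_ne_zero (neg_ne_zero.2 ?_) Complex.I_ne_zero
    exact_mod_cast hl.ne'
  have h1 : ∀ τ : ℝ, ee p τ = Complex.exp ((-(Real.log p : ℂ) * Complex.I) * τ) := by
    intro τ
    unfold ee
    congr 1
    ring
  simp_rw [h1]
  rw [integral_exp_mul_complex hc]
  have h2 : (-(Real.log p : ℂ) * Complex.I : ℂ) * ((2 * Real.pi / Real.log p : ℝ) : ℂ) =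
      ((-1 : ℤ) : ℂ) * (2 * Real.pi * Complex.I) := by
    have hl' : ((Real.log p : ℝ) : ℂ) ≠ 0 := by exact_mod_cast hl.ne'
    rw [Complex.ofReal_div, Complex.ofReal_mul]
    field_simp
    push_cast
    ring
  rw [h2, Complex.exp_int_mul_two_pi_mul_I]
  simp

/-- The cross terms. -/
lemma mean_cross (hT : Tendsto T ℱ atTop) (F : Finset ℕ) (hF : ∀ p ∈ F, p.Prime)
    (φ : ℕ → ℝ → ℂ) (hm : ∀ p, Measurable (φ p)) (hb : ∀ p τ, ‖φ p τ‖ ≤ 1)
    (hper : ∀ p, p.Prime → Function.Periodic (φ p) (2 * Real.pi / Real.log p))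
    {p q : ℕ} (hp : p.Prime) (hq : q.Prime) (hpF : p ∉ F) (hqF : q ∉ F) :
    Mn ℱ a T (fun τ => (∏ r ∈ F, φ r τ) * (ee p τ * (starRingEnd ℂ) (ee q τ)))
      (if p = q then ∏ r ∈ F, J φ r else 0) := by
  classical
  split_ifs with hpq
  · subst hpq
    refine (mean_prod (a := a) hT F hF φ hm hb hper).congr fun τ => ?_
    rw [Complex.mul_conj, Complex.normSq_eq_norm_sq, norm_ee]
    simp
  · set ψ : ℕ → ℝ → ℂ := fun r => if r = p then ee p else
      if r = q then (fun τ => (starRingEnd ℂ) (ee q τ)) else φ r with hψ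
    have hψF : ∀ r ∈ F, ψ r = φ r := by
      intro r hr
      simp only [hψ]
      rw [if_neg (fun h : r = p => hpF (h ▸ hr)), if_neg (fun h : r = q => hqF (h ▸ hr))]
    have hpins : p ∉ insert q F := by
      rw [mem_insert, not_or]
      exact ⟨hpq, hpF⟩
    have h1 := mean_prod (a := a) hT (insert p (insert q F)) (fun r hr => by
        rw [mem_insert, mem_insert] at hr
        rcases hr with rfl | rfl | hr
        · exact hp
        · exact hq
        · exact hF r hr) ψ (fun r => by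
        simp only [hψ]
        split_ifs
        · exact (continuous_ee p).measurable
        · exact (Complex.continuous_conj.comp (continuous_ee q)).measurable
        · exact hm r) (fun r τ => by
        simp only [hψ]
        split_ifs
        · exact (norm_ee p τ).le
        · rw [RCLike.norm_conj, norm_ee]
        · exact hb r τ) (fun r hr τ => by
        simp only [hψ]
        split_ifs with h1 h2
        · subst h1
          exact ee_periodic hr τ
        · subst h2
          simp only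
          rw [ee_periodic hr τ]
        · exact hper r hr τ)
    rw [prod_insert hpins] at h1
    have h2 : J ψ p = 0 := by
      unfold J
      simp only [hψ, if_true]
      rw [int_ee hp, zero_div]
    rw [h2, zero_mul] at h1
    refine h1.congr fun τ => ?_
    rw [prod_insert hpins, prod_insert hqF, prod_congr rfl fun r hr => by rw [hψF r hr]]
    simp only [hψ, if_true, if_neg (Ne.symm hpq)]
    ring

/-- **The conditional mean square.** -/
theorem mean_sq (hT : Tendsto T ℱ atTop) (F G : Finset ℕ) (hF : ∀ p ∈ F, p.Prime)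
    (hG : ∀ p ∈ G, p.Prime) (hFG : Disjoint F G)
    (φ : ℕ → ℝ → ℂ) (hm : ∀ p, Measurable (φ p)) (hb : ∀ p τ, ‖φ p τ‖ ≤ 1)
    (hper : ∀ p, p.Prime → Function.Periodic (φ p) (2 * Real.pi / Real.log p)) (c : ℕ → ℂ) :
    Mn ℱ a T (fun τ => (∏ r ∈ F, φ r τ) * ((‖∑ p ∈ G, c p * ee p τ‖ ^ 2 : ℝ) : ℂ))
      ((∏ r ∈ F, J φ r) * ((∑ p ∈ G, ‖c p‖ ^ 2 : ℝ) : ℂ)) := by
  classical
  have hnot : ∀ p ∈ G, p ∉ F := fun p hp h => (disjoint_left.1 hFG) h hp
  have bF : Bd fun τ => ∏ p ∈ F, φ p τ := Bd.prod fun p _ => ⟨hm p, 1, hb p⟩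
  have be : ∀ p q, Bd fun τ => ee p τ * (starRingEnd ℂ) (ee q τ) := by
    intro p q
    refine ⟨((continuous_ee p).mul (Complex.continuous_conj.comp (continuous_ee q))).measurable,
      1, fun τ => ?_⟩
    rw [norm_mul, RCLike.norm_conj, norm_ee, norm_ee, one_mul]
  have h1 : Mn ℱ a T (fun τ => ∑ z ∈ G ×ˢ G, (c z.1 * (starRingEnd ℂ) (c z.2)) *
      ((∏ r ∈ F, φ r τ) * (ee z.1 τ * (starRingEnd ℂ) (ee z.2 τ))))
      (∑ z ∈ G ×ˢ G, (c z.1 * (starRingEnd ℂ) (c z.2)) *
        (if z.1 = z.2 then ∏ r ∈ F, J φ r else 0)) := by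
    refine Mn.sum (fun z _ => (Bd.const _).mul (bF.mul (be _ _))) fun z hz => ?_
    rw [mem_product] at hz
    exact (mean_cross hT F hF φ hm hb hper (hG _ hz.1) (hG _ hz.2) (hnot _ hz.1)
      (hnot _ hz.2)).smul _
  have h2 : ∑ z ∈ G ×ˢ G, (c z.1 * (starRingEnd ℂ) (c z.2)) *
        (if z.1 = z.2 then ∏ r ∈ F, J φ r else 0) =
      (∏ r ∈ F, J φ r) * ((∑ p ∈ G, ‖c p‖ ^ 2 : ℝ) : ℂ) := by
    rw [sum_product]
    push_cast
    rw [mul_sum]
    refine sum_congr rfl fun p hp => ?_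
    simp only [mul_ite, mul_zero]
    rw [sum_ite_eq, if_pos hp, Complex.mul_conj, Complex.normSq_eq_norm_sq]
    push_cast
    ring
  rw [h2] at h1
  refine h1.congr fun τ => ?_
  rw [← Complex.normSq_eq_norm_sq, ← Complex.mul_conj, map_sum, sum_mul_sum, sum_product, mul_sum]
  refine sum_congr rfl fun p _ => ?_
  rw [mul_sum]
  refine sum_congr rfl fun q _ => ?_
  rw [map_mul]
  ring

end Pool.Agent.Y774.JD
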