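import Pool.Agent.Y774.FP.Fin
import Pool.Agent.Y774.JD.Mean

/-!
# Joint denseness: the analytic theorem
-/

set_option autoImplicit false

namespace Pool.Agent.Y774.JD

open Filter Topology MeasureTheory Finset Pool.Agent.W350.Edge Pool.Agent.Y774.MD
open scoped ENNReal

/-- Families of functions on the circles indexed by the primes. -/
structure Fam {κ : Type} (f : κ → ℕ → ℂ → ℂ) (c : κ → ℕ → ℂ) (C : ℝ) (e : ℕ → ℝ)
    (E : Finset ℕ) : Prop where
  bb : ∀ k, BlockBound (c k) C
  he : Summable e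
  e0 : ∀ p, 0 ≤ e p
  cont : ∀ k p, p.Prime → ContinuousOn (f k p) (Metric.sphere 0 1)
  hr : ∀ k p, p.Prime → p ∉ E → ∀ u : ℂ, ‖u‖ = 1 → ‖f k p u - c k p * u‖ ≤ e p

/-- The partial sums. -/
noncomputable def fS {κ : Type} (f : κ → ℕ → ℂ → ℂ) (k : κ) (x : ℕ) (τ : ℝ) : ℂ :=
  ∑ p ∈ (range x).filter Nat.Prime, f k p (ee p τ)

/-- The squares are summable. -/
lemma sq_summable {c : ℕ → ℂ} {C : ℝ} (h : BlockBound c C) :
    Summable fun p : ℕ => if p.Prime then ‖c p‖ ^ 2 else 0 := by
  classical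
  have hC := h.nonneg
  have hgeo : Summable fun k : ℕ => C ^ 2 * (1 / (k : ℝ) ^ 2) :=
    (Real.summable_one_div_nat_pow.2 (by norm_num)).mul_left _
  refine summable_of_sum_le (c := ‖c 2‖ ^ 2 + ∑' k : ℕ, C ^ 2 * (1 / (k : ℝ) ^ 2))
    (fun p => ?_) fun F => ?_
  · split_ifs <;> positivity
  · rw [← sum_filter]
    set F' := F.filter Nat.Prime with hF'
    have hF'p : ∀ p ∈ F', p.Prime := fun p hp => (mem_filter.1 hp).2
    rw [← sum_filter_add_sum_filter_not F' (fun p => lg p = 0)]
    refine add_le_add ?_ ?_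
    · have h1 : F'.filter (fun p => lg p = 0) ⊆ {2} := by
        intro p hp
        rw [mem_filter] at hp
        rw [mem_singleton]
        have h2 := lt_lg p
        rw [hp.2] at h2
        have hp0 : (0 : ℝ) < p := by exact_mod_cast (hF'p p hp.1).pos
        have h3 : (p : ℝ) < Real.exp 1 := by
          rw [← Real.log_lt_iff_lt_exp hp0]
          simpa using h2
        have h4 : (p : ℝ) < 3 := by
          have := Real.exp_one_lt_d9
          linarith
        have h5 : p < 3 := by exact_mod_cast h4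
        have := (hF'p p hp.1).two_le
        omega
      refine (sum_le_sum_of_subset_of_nonneg h1 fun p _ _ => by positivity).trans ?_
      rw [sum_singleton]
    · set G := F'.filter (fun p => ¬ lg p = 0) with hG
      have hmaps : ∀ p ∈ G, lg p ∈ G.image lg := fun p hp => mem_image_of_mem _ hp
      rw [← sum_fiberwise_of_maps_to hmaps]
      have h1 : ∀ k ∈ G.image lg, ∑ p ∈ G with lg p = k, ‖c p‖ ^ 2 ≤ C ^ 2 * (1 / (k : ℝ) ^ 2) := by
        intro k hk
        rw [mem_image] at hk
        obtain ⟨p₀, hp₀, hpk⟩ := hk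
        have hk1 : 1 ≤ k := by
          rw [hG, mem_filter] at hp₀
          omega
        have h2 : ∑ p ∈ G with lg p = k, ‖c p‖ ≤ C / k := by
          refine h k hk1 _ fun p hp => ?_
          rw [mem_filter, hG, mem_filter] at hp
          exact ⟨hF'p p hp.1.1, hp.2⟩
        calc ∑ p ∈ G with lg p = k, ‖c p‖ ^ 2 ≤ (∑ p ∈ G with lg p = k, ‖c p‖) ^ 2 :=
              by
                rw [sq (∑ p ∈ G with lg p = k, ‖c p‖), sum_mul]
                refine sum_le_sum fun p hp => ?_
                rw [sq]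
                exact mul_le_mul_of_nonneg_left (single_le_sum (f := fun p => ‖c p‖)
                  (fun _ _ => norm_nonneg _) hp) (norm_nonneg _)
          _ ≤ (C / k) ^ 2 := pow_le_pow_left₀ (sum_nonneg fun _ _ => norm_nonneg _) h2 2
          _ = _ := by rw [div_pow]; ring
      refine (sum_le_sum h1).trans ?_
      exact hgeo.sum_le_tsum _ fun k _ => by positivity

/-- Small tails of summable series. -/
lemma tail_small {s : ℕ → ℝ} (hs : Summable s) {η : ℝ} (hη : 0 < η) :
    ∃ N : ℕ, ∀ F : Finset ℕ, (∀ p ∈ F, N ≤ p) → ∑ p ∈ F, s p < η := by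
  obtain ⟨S, hS⟩ := summable_iff_vanishing_norm.1 hs η hη
  obtain ⟨M, hM⟩ := S.finite_toSet.bddAbove
  refine ⟨M + 1, fun F hF => ?_⟩
  have h1 := hS F (by
    rw [disjoint_left]
    intro p hp hpS
    have h2 := hF p hp
    have h3 := hM hpS
    omega)
  exact (le_abs_self _).trans_lt (by simpa using h1)

variable {κ : Type} [Fintype κ] {f : κ → ℕ → ℂ → ℂ} {c : κ → ℕ → ℂ} {C : ℝ} {e : ℕ → ℝ}
  {E : Finset ℕ}

lemma Fam.continuous (h : Fam f c C e E) (k : κ) {p : ℕ} (hp : p.Prime) :
    Continuous fun τ => f k p (ee p τ) :=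
  (h.cont k p hp).comp_continuous (continuous_ee p) fun τ => by simp [norm_ee]

lemma Fam.continuous_fS (h : Fam f c C e E) (k : κ) (x : ℕ) : Continuous (fS f k x) := by
  unfold fS
  exact continuous_finsetSum _ fun p hp => h.continuous k (mem_filter.1 hp).2

lemma Fam.approx_re (h : Fam f c C e E) (k : κ) :
    Approx (fun p τ => if p.Prime then (f k p (ee p τ)).re else 0) (c k) C e E where
  bb := h.bb k
  he := h.he
  e0 := h.e0
  meas := fun p => by
    by_cases hp : p.Prime
    · simp only [hp, if_true]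
      exact (Complex.continuous_re.comp (h.continuous k hp)).measurable
    · simp only [hp, if_false]
      exact measurable_const
  hr := fun p hp hpE τ => by
    simp only [hp, if_true]
    have h1 := h.hr k p hp hpE (ee p τ) (norm_ee p τ)
    refine le_trans ?_ h1
    rw [← Complex.sub_re]
    exact Complex.abs_re_le_norm _

lemma Fam.approx_im (h : Fam f c C e E) (k : κ) :
    Approx (fun p τ => if p.Prime then (f k p (ee p τ)).im else 0)
      (fun p => -Complex.I * c k p) C e E where
  bb := by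
    have h1 := (h.bb k).smul (-Complex.I)
    simpa using h1
  he := h.he
  e0 := h.e0
  meas := fun p => by
    by_cases hp : p.Prime
    · simp only [hp, if_true]
      exact (Complex.continuous_im.comp (h.continuous k hp)).measurable
    · simp only [hp, if_false]
      exact measurable_const
  hr := fun p hp hpE τ => by
    simp only [hp, if_true]
    have h1 := h.hr k p hp hpE (ee p τ) (norm_ee p τ)
    refine le_trans (le_of_eq ?_) ((Complex.abs_im_le_norm _).trans h1)
    rw [Complex.sub_im]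
    congr 2
    have h2 : -Complex.I * c k p * Complex.exp (-(τ * Real.log p) * Complex.I) =
        -Complex.I * (c k p * ee p τ) := by
      unfold ee
      ring
    rw [h2]
    simp

/-- The tails are small in mean. -/
lemma Fam.tail (h : Fam f c C e E) {G : κ → ℝ → ℂ}
    (hG : ∀ k, ∀ᵐ τ : ℝ, Tendsto (fun x => fS f k x τ) atTop (𝓝 (G k τ))) {η : ℝ} (hη : 0 < η) :
    ∃ J₀, ∀ J, J₀ ≤ J → ∀ k, ∀ m : ℝ,
      ∫⁻ τ in Set.Ioc m (m + 1), ‖G k τ - fS f k (NN 1 J) τ‖ₑ ≤ ENNReal.ofReal η := by
  obtain ⟨J₀, hJ₀⟩ := FP.tail_unif C e E (half_pos hη)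
  refine ⟨J₀, fun J hJ k m => ?_⟩
  have e1 : ∀ x τ, rS (fun p τ => if p.Prime then (f k p (ee p τ)).re else 0) x τ =
      (fS f k x τ).re := by
    intro x τ
    unfold rS fS
    rw [Complex.re_sum]
    refine sum_congr rfl fun p hp => ?_
    simp only [(mem_filter.1 hp).2, if_true]
  have e2 : ∀ x τ, rS (fun p τ => if p.Prime then (f k p (ee p τ)).im else 0) x τ =
      (fS f k x τ).im := by
    intro x τ
    unfold rS fS
    rw [Complex.im_sum]
    refine sum_congr rfl fun p hp => ?_
    simp only [(mem_filter.1 hp).2, if_true]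
  have h1 := hJ₀ _ _ (h.approx_re k) (fun τ => (G k τ).re) (by
    filter_upwards [hG k] with τ hτ
    refine ((Complex.continuous_re.tendsto _).comp hτ).congr fun x => (e1 x τ).symm) J hJ m
  have h2 := hJ₀ _ _ (h.approx_im k) (fun τ => (G k τ).im) (by
    filter_upwards [hG k] with τ hτ
    refine ((Complex.continuous_im.tendsto _).comp hτ).congr fun x => (e2 x τ).symm) J hJ m
  simp only [e1, e2] at h1 h2
  have hGm : AEMeasurable (G k) := by
    refine aemeasurable_of_tendsto_metrizable_ae atTop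
      (fun x => (h.continuous_fS k x).measurable.aemeasurable) (hG k)
  have hm : AEMeasurable (fun τ => ‖(G k τ).re - (fS f k (NN 1 J) τ).re‖ₑ)
      (volume.restrict (Set.Ioc m (m + 1))) := by
    refine AEMeasurable.enorm ?_
    exact ((Complex.measurable_re.comp_aemeasurable hGm).sub
      (Complex.measurable_re.comp_aemeasurable (h.continuous_fS k _).measurable.aemeasurable)).restrict
  calc ∫⁻ τ in Set.Ioc m (m + 1), ‖G k τ - fS f k (NN 1 J) τ‖ₑ
      ≤ ∫⁻ τ in Set.Ioc m (m + 1), (‖(G k τ).re - (fS f k (NN 1 J) τ).re‖ₑ +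
          ‖(G k τ).im - (fS f k (NN 1 J) τ).im‖ₑ) := by
        refine lintegral_mono fun τ => ?_
        rw [← Complex.sub_re, ← Complex.sub_im, ← ofReal_norm, ← ofReal_norm, ← ofReal_norm,
          ← ENNReal.ofReal_add (norm_nonneg _) (norm_nonneg _)]
        refine ENNReal.ofReal_le_ofReal ?_
        rw [Real.norm_eq_abs, Real.norm_eq_abs]
        exact Complex.norm_le_abs_re_add_abs_im _
    _ = (∫⁻ τ in Set.Ioc m (m + 1), ‖(G k τ).re - (fS f k (NN 1 J) τ).re‖ₑ) +
          ∫⁻ τ in Set.Ioc m (m + 1), ‖(G k τ).im - (fS f k (NN 1 J) τ).im‖ₑ :=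
        lintegral_add_left' hm _
    _ ≤ ENNReal.ofReal (η / 2) + ENNReal.ofReal (η / 2) := add_le_add h1 h2
    _ = ENNReal.ofReal η := by
        rw [← ENNReal.ofReal_add (by positivity) (by positivity), add_halves]

/-- The proportion of the circle near `w`. -/
lemma pos_J {p : ℕ} (hp : p.Prime) {w : ℂ} (hw : ‖w‖ = 1) {η : ℝ} (hη : 0 < η) :
    ∃ j : ℝ, 0 < j ∧ ∀ φ : ℕ → ℝ → ℂ, (φ p = fun τ => if ‖ee p τ - w‖ < η then 1 else 0) →
      J φ p = j := by
  have hl : 0 < Real.log p := Real.log_pos (by exact_mod_cast hp.one_lt)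
  set P := 2 * Real.pi / Real.log p with hPdef
  have hP : 0 < P := by positivity
  set S : Set ℝ := {τ | ‖ee p τ - w‖ < η} with hS
  have hSo : IsOpen S := isOpen_lt ((continuous_ee p).sub continuous_const).norm continuous_const
  have hSm : MeasurableSet S := hSo.measurableSet
  -- a point in the set
  obtain ⟨τ₀, hτ₀⟩ : ∃ τ : ℝ, ee p τ = w := by
    refine ⟨-(Complex.arg w) / Real.log p, ?_⟩
    unfold ee
    have h1 : -(((-(Complex.arg w) / Real.log p : ℝ) : ℂ) * (Real.log p : ℂ)) * Complex.I =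
        Complex.arg w * Complex.I := by
      have hl' : (Real.log p : ℂ) ≠ 0 := by exact_mod_cast hl.ne'
      rw [Complex.ofReal_div, Complex.ofReal_neg]
      field_simp
    rw [h1]
    have h2 := Complex.norm_mul_exp_arg_mul_I w
    rw [hw, Complex.ofReal_one, one_mul] at h2
    exact h2
  obtain ⟨τ₁, hτ₁, h1⟩ := (ee_periodic hp).exists_mem_Ico₀ hP τ₀
  have hτ₁S : τ₁ ∈ S := by
    show ‖ee p τ₁ - w‖ < η
    rw [← h1, hτ₀, sub_self, norm_zero]
    exact hη
  obtain ⟨δ, hδ, hball⟩ := Metric.isOpen_iff.1 hSo τ₁ hτ₁S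
  have hvol : 0 < volume (S ∩ Set.Ioc 0 P) := by
    have h2 : Set.Ioo τ₁ (min (τ₁ + δ) P) ⊆ S ∩ Set.Ioc 0 P := by
      intro τ hτ
      have h3 := hτ.2.trans_le (min_le_left _ _)
      have h4 := hτ.2.trans_le (min_le_right _ _)
      refine ⟨hball ?_, ?_, h4.le⟩
      · rw [Metric.mem_ball, Real.dist_eq, abs_lt]
        constructor <;> linarith [hτ.1]
      · exact lt_of_le_of_lt hτ₁.1 hτ.1
    refine lt_of_lt_of_le ?_ (measure_mono h2)
    rw [Real.volume_Ioo, ENNReal.ofReal_pos]
    have : τ₁ < min (τ₁ + δ) P := lt_min (by linarith) hτ₁.2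
    linarith
  have hfin : volume (S ∩ Set.Ioc 0 P) ≠ ⊤ :=
    ne_top_of_le_ne_top (by simp) (measure_mono (Set.inter_subset_right))
  refine ⟨(volume (S ∩ Set.Ioc 0 P)).toReal / P, div_pos (ENNReal.toReal_pos hvol.ne' hfin) hP,
    fun φ hφ => ?_⟩
  unfold J
  rw [hφ, ← hPdef, intervalIntegral.integral_of_le hP.le]
  have h2 : (fun τ => if ‖ee p τ - w‖ < η then (1 : ℂ) else 0) = S.indicator fun _ => 1 := by
    funext τ
    simp only [Set.indicator, hS, Set.mem_ofPred_eq]
  rw [h2, integral_indicator_const _ hSm, Measure.real, Measure.restrict_apply hSm]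
  rw [Complex.real_smul, mul_one, ← Complex.ofReal_div]

end Pool.Agent.Y774.JD
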