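import Pool.Agent.Y774.JD.Core

/-!
# Joint denseness: the analytic theorem (end)
-/

set_option autoImplicit false

namespace Pool.Agent.Y774.JD

open Filter Topology MeasureTheory Finset Pool.Agent.W350.Edge Pool.Agent.Y774.MD
open scoped ENNReal

variable {κ : Type} [Fintype κ] {f : κ → ℕ → ℂ → ℂ} {c : κ → ℕ → ℂ} {C : ℝ} {e : ℕ → ℝ}
  {E : Finset ℕ}

/-- The choice of the arguments. -/
lemma Fam.choice (h : Fam f c C e E)
    (hdiv : ∀ m : κ → ℂ, m ≠ 0 → ¬ Summable fun p : ℕ => if p.Prime then ‖∑ k, m k * c k p‖ else 0)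
    (v : κ → ℂ) {δ : ℝ} (hδ : 0 < δ) :
    ∃ N : ℕ, (∀ p ∈ E, p < N) ∧
      (∀ F : Finset ℕ, (∀ p ∈ F, N ≤ p) → ∑ p ∈ F, e p ≤ δ) ∧
      (∀ F : Finset ℕ, (∀ p ∈ F, N ≤ p ∧ p.Prime) → ∑ k, ∑ p ∈ F, ‖c k p‖ ^ 2 ≤ δ ^ 2) ∧
      ∃ w : ℕ → ℂ, (∀ p, ‖w p‖ = 1) ∧
        ∀ k, ‖∑ p ∈ (range N).filter Nat.Prime, f k p (w p) - v k‖ ≤ 2 * δ := by
  classical
  have hs1 : Summable fun p : ℕ => ∑ k, if p.Prime then ‖c k p‖ ^ 2 else 0 :=
    summable_sum fun k _ => sq_summable (h.bb k)
  obtain ⟨N₁, hN₁⟩ := tail_small hs1 (show 0 < δ ^ 2 by positivity)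
  obtain ⟨N₂, hN₂⟩ := tail_small h.he hδ
  obtain ⟨M, hM⟩ := E.finite_toSet.bddAbove
  set N := max (max N₁ N₂) (M + 1) with hN
  have hNE : ∀ p ∈ E, p < N := by
    intro p hp
    have h1 : p ≤ M := hM hp
    have h2 : M + 1 ≤ N := le_max_right _ _
    omega
  have hN1 : N₁ ≤ N := (le_max_left _ _).trans (le_max_left _ _)
  have hN2 : N₂ ≤ N := (le_max_right _ _).trans (le_max_left _ _)
  have hsq : ∀ F : Finset ℕ, (∀ p ∈ F, N ≤ p ∧ p.Prime) →
      ∑ p ∈ F, ∑ k, ‖c k p‖ ^ 2 ≤ δ ^ 2 := by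
    intro F hF
    refine le_trans (le_of_eq (sum_congr rfl fun p hp => ?_))
      (hN₁ F fun p hp => hN1.trans (hF p hp).1).le
    exact sum_congr rfl fun k _ => by rw [if_pos (hF p hp).2]
  -- the truncated coefficients
  set c' : ℕ → κ → ℂ := fun p k => if p.Prime ∧ N ≤ p then c k p else 0 with hc'
  have hdiv' : ∀ m : κ → ℂ, m ≠ 0 → ¬ Summable fun p => ‖pr m (c' p)‖ := by
    intro m hm hs
    refine hdiv m hm ?_
    refine (summable_congr_cofinite ?_).1 hs
    have h1 : ∀ᶠ p : ℕ in cofinite, N ≤ p := by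
      rw [Nat.cofinite_eq_atTop]
      exact eventually_ge_atTop N
    filter_upwards [h1] with p hp
    unfold pr
    simp only [hc']
    by_cases hpp : p.Prime
    · simp only [hpp, hp, and_self, if_true]
    · simp only [hpp, false_and, if_false, mul_zero, sum_const_zero, norm_zero]
  have hsq' : ∀ n : ℕ, ∑ p ∈ range n, ∑ k, ‖c' p k‖ ^ 2 ≤ δ ^ 2 := by
    intro n
    have h1 : ∑ p ∈ range n, ∑ k, ‖c' p k‖ ^ 2 =
        ∑ p ∈ (range n).filter (fun p => p.Prime ∧ N ≤ p), ∑ k, ‖c k p‖ ^ 2 := by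
      rw [sum_filter]
      refine sum_congr rfl fun p _ => ?_
      simp only [hc']
      split_ifs with hp
      · rfl
      · simp
    rw [h1]
    refine hsq _ fun p hp => ?_
    rw [mem_filter] at hp
    exact ⟨hp.2.2, hp.2.1⟩
  obtain ⟨n, u, hu, hclose⟩ := unimodular c' hdiv' hδ.le hsq'
    (fun k => v k - ∑ p ∈ (range N).filter Nat.Prime, f k p 1)
  set N' := max n N with hN'
  have hNN' : N ≤ N' := le_max_right _ _
  set w : ℕ → ℂ := fun p => if p < N then 1 else u p with hw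
  have hw1 : ∀ p, ‖w p‖ = 1 := by
    intro p
    simp only [hw]
    split_ifs
    · exact norm_one
    · exact hu p
  refine ⟨N', fun p hp => (hNE p hp).trans_le hNN', fun F hF =>
    (hN₂ F fun p hp => hN2.trans (hNN'.trans (hF p hp))).le, fun F hF => ?_, w, hw1, fun k => ?_⟩
  · rw [sum_comm]
    exact hsq F fun p hp => ⟨hNN'.trans (hF p hp).1, (hF p hp).2⟩
  · have hsplit : ∑ p ∈ (range N').filter Nat.Prime, f k p (w p) =
        ∑ p ∈ (range N).filter Nat.Prime, f k p 1 +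
          ∑ p ∈ (Ico N N').filter Nat.Prime, f k p (u p) := by
      have h1 := sum_Ico_filter (fun p => f k p (w p)) hNN'
      rw [sub_eq_iff_eq_add] at h1
      rw [h1, add_comm]
      congr 1
      · refine sum_congr rfl fun p hp => ?_
        rw [mem_filter, mem_range] at hp
        simp only [hw, if_pos hp.1]
      · refine sum_congr rfl fun p hp => ?_
        rw [mem_filter, mem_Ico] at hp
        simp only [hw, if_neg (not_lt.2 hp.1.1)]
    have hc1 : ∑ p ∈ range n, u p * c' p k = ∑ p ∈ (Ico N N').filter Nat.Prime, c k p * u p := by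
      have h1 : ∑ p ∈ range n, u p * c' p k = ∑ p ∈ range N', u p * c' p k := by
        refine sum_subset (range_subset_range.2 (le_max_left _ _)) fun p hp hpn => ?_
        rw [mem_range] at hp hpn
        have h2 : p < N := by
          rcases max_cases n N with h3 | h3 <;> omega
        simp only [hc']
        rw [if_neg (fun h => absurd h.2 (not_le.2 h2)), mul_zero]
      rw [h1]
      have h2 : (Ico N N').filter Nat.Prime = (range N').filter fun p => p.Prime ∧ N ≤ p := by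
        ext p
        simp only [mem_filter, mem_Ico, mem_range]
        tauto
      rw [h2, sum_filter]
      refine sum_congr rfl fun p _ => ?_
      simp only [hc']
      split_ifs
      · ring
      · ring
    have herr : ‖∑ p ∈ (Ico N N').filter Nat.Prime, (f k p (u p) - c k p * u p)‖ ≤ δ := by
      refine (norm_sum_le_of_le (n := e) _ fun p hp => ?_).trans
        (hN₂ _ fun p hp => hN2.trans ?_).le
      · rw [mem_filter, mem_Ico] at hp
        exact h.hr k p hp.2 (fun h1 => absurd (hNE p h1) (not_lt.2 hp.1.1)) _ (hu p)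
      · rw [mem_filter, mem_Ico] at hp
        exact hp.1.1
    have h1 := hclose k
    rw [hc1] at h1
    have h2 : ∑ p ∈ (range N').filter Nat.Prime, f k p (w p) - v k =
        (∑ p ∈ (Ico N N').filter Nat.Prime, c k p * u p -
          (v k - ∑ p ∈ (range N).filter Nat.Prime, f k p 1)) +
        ∑ p ∈ (Ico N N').filter Nat.Prime, (f k p (u p) - c k p * u p) := by
      rw [hsplit, sum_sub_distrib]
      ring
    rw [h2]
    refine (norm_add_le _ _).trans ?_
    linarith

omit [Fintype κ] in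
/-- Continuity. -/
lemma Fam.near [Finite κ] (h : Fam f c C e E) {w : ℕ → ℂ} (hw : ∀ p, ‖w p‖ = 1) (N : ℕ) {δ : ℝ}
    (hδ : 0 < δ) :
    ∃ η : ℝ, 0 < η ∧ ∀ z : ℕ → ℂ, (∀ p, ‖z p‖ = 1) →
      (∀ p ∈ (range N).filter Nat.Prime, ‖z p - w p‖ < η) →
      ∀ k, ‖∑ p ∈ (range N).filter Nat.Prime, f k p (z p) -
        ∑ p ∈ (range N).filter Nat.Prime, f k p (w p)‖ ≤ δ := by
  classical
  set F := (range N).filter Nat.Prime with hF
  set δ' := δ / (F.card + 1) with hδ'
  have hδ'0 : 0 < δ' := by positivity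
  have h1 : ∀ᶠ η : ℝ in 𝓝[>] 0, ∀ p ∈ F, ∀ k : κ, ∀ z : ℂ, ‖z‖ = 1 → ‖z - w p‖ < η →
      ‖f k p z - f k p (w p)‖ ≤ δ' := by
    rw [eventually_all_finset]
    intro p hp
    rw [eventually_all]
    intro k
    have h2 := h.cont k p (mem_filter.1 hp).2 (w p) (by simpa using hw p)
    rw [Metric.continuousWithinAt_iff] at h2
    obtain ⟨η₀, hη₀, h3⟩ := h2 δ' hδ'0
    filter_upwards [Ioo_mem_nhdsGT hη₀] with η hη z hz hzw
    have h4 := h3 (x := z) (by simpa using hz) (by
      rw [dist_eq_norm]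
      exact hzw.trans hη.2)
    rw [dist_eq_norm] at h4
    exact h4.le
  obtain ⟨η, h2, h3⟩ := (h1.and self_mem_nhdsWithin).exists
  refine ⟨η, h3, fun z hz hzw k => ?_⟩
  rw [← sum_sub_distrib]
  refine (norm_sum_le_of_le (n := fun _ => δ') _ fun p hp => h2 p hp k _ (hz p) (hzw p hp)).trans ?_
  rw [sum_const, nsmul_eq_mul, hδ', mul_div_assoc']
  rw [div_le_iff₀ (by positivity)]
  nlinarith

/-- **Joint denseness.** -/
theorem dense (h : Fam f c C e E) {G : κ → ℝ → ℂ}
    (hG : ∀ k, ∀ᵐ τ : ℝ, Tendsto (fun x => fS f k x τ) atTop (𝓝 (G k τ)))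
    (hdiv : ∀ m : κ → ℂ, m ≠ 0 → ¬ Summable fun p : ℕ => if p.Prime then ‖∑ k, m k * c k p‖ else 0)
    (v : κ → ℂ) {ε : ℝ} (hε : 0 < ε) :
    ∃ ρ : ℝ, 0 < ρ ∧ ∃ T₀ : ℝ, 0 < T₀ ∧ ∀ a T : ℝ, T₀ ≤ T →
      ENNReal.ofReal (ρ * T) ≤ volume {τ | τ ∈ Set.Ioc a (a + T) ∧ ∀ k, ‖G k τ - v k‖ < ε} := by
  classical
  set δ := ε / 8 with hδdef
  have hδ : 0 < δ := by positivity
  obtain ⟨N, hNE, hNe, hNsq, w, hw, hwv⟩ := h.choice hdiv v hδ
  obtain ⟨η, hη, hnear⟩ := h.near hw N hδ
  set F := (range N).filter Nat.Prime with hF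
  have hFp : ∀ p ∈ F, p.Prime := fun p hp => (mem_filter.1 hp).2
  -- the indicator functions
  set φ : ℕ → ℝ → ℂ := fun p τ => if ‖ee p τ - w p‖ < η then 1 else 0 with hφ
  have hφm : ∀ p, Measurable (φ p) := by
    intro p
    simp only [hφ]
    exact Measurable.ite (isOpen_lt ((continuous_ee p).sub continuous_const).norm
      continuous_const).measurableSet measurable_const measurable_const
  have hφb : ∀ p τ, ‖φ p τ‖ ≤ 1 := by
    intro p τ
    simp only [hφ]
    split_ifs <;> simp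
  have hφper : ∀ p, p.Prime → Function.Periodic (φ p) (2 * Real.pi / Real.log p) := by
    intro p hp τ
    simp only [hφ]
    rw [ee_periodic hp τ]
  have hJ : ∀ p, p.Prime → ∃ j : ℝ, 0 < j ∧ J φ p = j := by
    intro p hp
    obtain ⟨j, hj, h1⟩ := pos_J hp (hw p) hη
    exact ⟨j, hj, h1 φ rfl⟩
  choose! j hj0 hj using hJ
  set Jt : ℝ := ∏ p ∈ F, j p with hJt
  have hJt0 : 0 < Jt := prod_pos fun p hp => hj0 p (hFp p hp)
  have hJtc : ∏ p ∈ F, J φ p = (Jt : ℂ) := by
    rw [hJt, Complex.ofReal_prod]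
    exact prod_congr rfl fun p hp => hj p (hFp p hp)
  -- the far tail
  set K : ℝ := ((Fintype.card κ : ℕ) : ℝ) with hK
  have hK0 : 0 ≤ K := Nat.cast_nonneg _
  set η₂ := δ * Jt / (8 * (K + 1)) with hη₂
  have hη₂0 : 0 < η₂ := by positivity
  obtain ⟨J₀, hJ₀⟩ := h.tail hG hη₂0
  obtain ⟨J₁, hJ₁, hNX⟩ : ∃ J₁, J₀ ≤ J₁ ∧ N ≤ NN 1 J₁ := by
    obtain ⟨J₁, hJ₁⟩ := ((tendsto_NN 1).eventually (eventually_ge_atTop N)).exists_forall_of_atTop
    exact ⟨max J₀ J₁, le_max_left _ _, hJ₁ _ (le_max_right _ _)⟩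
  set X := NN 1 J₁ with hX
  set Gs := (Ico N X).filter Nat.Prime with hGs
  have hGsp : ∀ p ∈ Gs, N ≤ p ∧ p.Prime := by
    intro p hp
    rw [hGs, mem_filter, mem_Ico] at hp
    exact ⟨hp.1.1, hp.2⟩
  have hdisj : Disjoint F Gs := by
    rw [disjoint_left]
    intro p hp hp'
    rw [hF, mem_filter, mem_range] at hp
    have := (hGsp p hp').1
    omega
  set S : ℝ := ∑ k, ∑ p ∈ Gs, ‖c k p‖ ^ 2 with hS
  have hSδ : S ≤ δ ^ 2 := hNsq Gs hGsp
  have hS0 : 0 ≤ S := sum_nonneg fun _ _ => sum_nonneg fun _ _ => by positivity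
  set M : ℝ → ℝ := fun τ => ∑ k, ‖∑ p ∈ Gs, c k p * ee p τ‖ ^ 2 with hM
  have hM0 : ∀ τ, 0 ≤ M τ := fun τ => sum_nonneg fun _ _ => by positivity
  set χ : ℝ → ℝ := fun τ => if ∀ p ∈ F, ‖ee p τ - w p‖ < η then 1 else 0 with hχ
  have hχc : ∀ τ, ∏ p ∈ F, φ p τ = (χ τ : ℂ) := by
    intro τ
    simp only [hφ, hχ]
    rw [prod_ite_zero]
    split_ifs <;> simp
  have hχ01 : ∀ τ, 0 ≤ χ τ ∧ χ τ ≤ 1 := by
    intro τ
    simp only [hχ]
    split_ifs <;> simp
  have hχm : Measurable χ := by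
    have h1 : χ = fun τ => (∏ p ∈ F, φ p τ).re := by
      funext τ
      rw [hχc, Complex.ofReal_re]
    rw [h1]
    exact Complex.measurable_re.comp (Finset.measurable_prod _ fun p _ => hφm p)
  have hMc : Continuous M := by
    simp only [hM]
    refine continuous_finsetSum _ fun k _ => ?_
    exact (continuous_finsetSum _ fun p _ => continuous_const.mul (continuous_ee p)).norm.pow 2
  -- the means
  set ℱ : Filter (ℝ × ℝ) := comap Prod.snd atTop with hℱ
  have hT : Tendsto (fun i : ℝ × ℝ => i.2) ℱ atTop := tendsto_comap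
  have hmean1 := mean_prod (a := fun i : ℝ × ℝ => i.1) hT F hFp φ hφm hφb hφper
  have hmean2 : Mn ℱ (fun i : ℝ × ℝ => i.1) (fun i => i.2)
      (fun τ => ((χ τ * M τ : ℝ) : ℂ)) ((Jt * S : ℝ) : ℂ) := by
    have h1 : Mn ℱ (fun i : ℝ × ℝ => i.1) (fun i => i.2)
        (fun τ => ∑ k, (∏ p ∈ F, φ p τ) * ((‖∑ p ∈ Gs, c k p * ee p τ‖ ^ 2 : ℝ) : ℂ))
        (∑ k, (∏ p ∈ F, J φ p) * ((∑ p ∈ Gs, ‖c k p‖ ^ 2 : ℝ) : ℂ)) := by
      refine Mn.sum (fun k _ => ?_) fun k _ =>
        mean_sq hT F Gs hFp (fun p hp => (hGsp p hp).2) hdisj φ hφm hφb hφper (c k)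
      refine (Bd.prod fun p _ => ⟨hφm p, 1, hφb p⟩).mul ⟨?_, (∑ p ∈ Gs, ‖c k p‖) ^ 2, fun τ => ?_⟩
      · refine (Complex.continuous_ofReal.comp ?_).measurable
        exact (continuous_finsetSum _ fun p _ =>
          continuous_const.mul (continuous_ee p)).norm.pow 2
      · rw [Complex.norm_real, Real.norm_of_nonneg (by positivity)]
        refine pow_le_pow_left₀ (norm_nonneg _) ?_ 2
        refine norm_sum_le_of_le _ fun p _ => ?_
        rw [norm_mul, norm_ee, mul_one]
    rw [hJtc] at h1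
    have h2 : ∑ k, (Jt : ℂ) * ((∑ p ∈ Gs, ‖c k p‖ ^ 2 : ℝ) : ℂ) = ((Jt * S : ℝ) : ℂ) := by
      rw [hS]
      push_cast
      rw [mul_sum]
    rw [h2] at h1
    refine h1.congr fun τ => ?_
    rw [hχc, ← mul_sum]
    simp only [hM]
    push_cast
    ring
  have hmean1' : Mn ℱ (fun i : ℝ × ℝ => i.1) (fun i => i.2) (fun τ => (χ τ : ℂ)) (Jt : ℂ) := by
    rw [hJtc] at hmean1
    exact hmean1.congr hχc
  have e1 := hmean1'.eventually (Metric.ball_mem_nhds _ (show 0 < Jt / 8 by positivity))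
  have e2 := hmean2.eventually (Metric.ball_mem_nhds _ (show 0 < Jt * δ ^ 2 / 8 by positivity))
  have e3 := (e1.and e2).and (hT.eventually (eventually_ge_atTop (1 : ℝ)))
  rw [hℱ, eventually_comap] at e3
  obtain ⟨T₀, hT₀⟩ := (e3.and (eventually_ge_atTop (1 : ℝ))).exists_forall_of_atTop
  refine ⟨Jt / 4, by positivity, max T₀ 1, lt_max_of_lt_right one_pos, fun a T hTT => ?_⟩
  obtain ⟨h4, hT1⟩ := hT₀ T ((le_max_left _ _).trans hTT)
  obtain ⟨⟨h5, h6⟩, -⟩ := h4 (a, T) rfl
  simp only at h5 h6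
  have hTpos : 0 < T := by linarith
  -- integrals over the window
  set I := Set.Ioc a (a + T) with hI
  have hχint : IntegrableOn χ I := by
    refine Measure.integrableOn_of_bounded (M := 1) (by simp [hI]) hχm.aestronglyMeasurable
      (ae_of_all _ fun τ => ?_)
    rw [Real.norm_of_nonneg (hχ01 τ).1]
    exact (hχ01 τ).2
  have hMint : IntegrableOn (fun τ => χ τ * M τ) I := by
    have hMint' : IntegrableOn M I :=
      (hMc.integrableOn_Icc (a := a) (b := a + T)).mono_set Set.Ioc_subset_Icc_self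
    refine hMint'.bdd_mul (c := 1) hχm.aestronglyMeasurable.restrict (ae_of_all _ fun τ => ?_)
    rw [Real.norm_of_nonneg (hχ01 τ).1]
    exact (hχ01 τ).2
  have i1 : 7 / 8 * Jt * T ≤ ∫ τ in I, χ τ := by
    rw [intervalIntegral.integral_of_le (by linarith), ← hI,
      show (∫ τ in I, ((χ τ : ℝ) : ℂ)) = ((∫ τ in I, χ τ : ℝ) : ℂ) from integral_complex_ofReal,
      dist_eq_norm, ← Complex.ofReal_div, ← Complex.ofReal_sub, Complex.norm_real,
      Real.norm_eq_abs, abs_lt] at h5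
    have h7 : 7 / 8 * Jt < (∫ τ in I, χ τ) / T := by linarith [h5.1]
    rw [lt_div_iff₀ hTpos] at h7
    exact h7.le
  have i2 : ∫ τ in I, χ τ * M τ ≤ 9 / 8 * Jt * δ ^ 2 * T := by
    rw [intervalIntegral.integral_of_le (by linarith), ← hI,
      show (∫ τ in I, ((χ τ * M τ : ℝ) : ℂ)) = ((∫ τ in I, χ τ * M τ : ℝ) : ℂ) from
        integral_complex_ofReal,
      dist_eq_norm, ← Complex.ofReal_div, ← Complex.ofReal_sub, Complex.norm_real,
      Real.norm_eq_abs, abs_lt] at h6
    have h7 : (∫ τ in I, χ τ * M τ) / T < 9 / 8 * Jt * δ ^ 2 := by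
      have h8 : Jt * S ≤ Jt * δ ^ 2 := mul_le_mul_of_nonneg_left hSδ hJt0.le
      linarith [h6.2]
    rw [div_lt_iff₀ hTpos] at h7
    exact h7.le
  -- the good set
  set Good : Set ℝ := {τ | τ ∈ I ∧ ∀ k, ‖G k τ - v k‖ < ε} with hGood
  set R : ℝ → ℝ≥0∞ := fun τ => ∑ k, ‖G k τ - fS f k X τ‖ₑ with hR
  have hpt : ∀ τ ∈ I, ENNReal.ofReal (χ τ) ≤ Good.indicator (fun _ => 1) τ +
      (ENNReal.ofReal (χ τ * M τ) * ENNReal.ofReal (1 / (4 * δ ^ 2)) +
        R τ * ENNReal.ofReal (1 / δ)) := by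
    intro τ hτ
    by_cases hχτ : ∀ p ∈ F, ‖ee p τ - w p‖ < η
    swap
    · have : χ τ = 0 := by
        simp only [hχ]
        rw [if_neg hχτ]
      rw [this, ENNReal.ofReal_zero]
      exact zero_le
    have hχ1 : χ τ = 1 := by
      simp only [hχ]
      rw [if_pos hχτ]
    rw [hχ1, ENNReal.ofReal_one, one_mul]
    by_cases h7 : 4 * δ ^ 2 ≤ M τ
    · have h8 : 1 ≤ ENNReal.ofReal (M τ) * ENNReal.ofReal (1 / (4 * δ ^ 2)) := by
        rw [← ENNReal.ofReal_mul (hM0 τ), ← ENNReal.ofReal_one]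
        refine ENNReal.ofReal_le_ofReal ?_
        rw [mul_one_div, le_div_iff₀ (by positivity)]
        linarith
      exact h8.trans (le_add_of_le_right (le_add_of_le_left le_rfl))
    push Not at h7
    by_cases h8 : ∃ k, δ ≤ ‖G k τ - fS f k X τ‖
    · obtain ⟨k, hk⟩ := h8
      have h9 : 1 ≤ R τ * ENNReal.ofReal (1 / δ) := by
        have h10 : ENNReal.ofReal δ ≤ R τ := by
          refine le_trans ?_ (single_le_sum (f := fun k => ‖G k τ - fS f k X τ‖ₑ)
            (fun _ _ => zero_le) (mem_univ k))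
          rw [← ofReal_norm]
          exact ENNReal.ofReal_le_ofReal hk
        calc (1 : ℝ≥0∞) = ENNReal.ofReal δ * ENNReal.ofReal (1 / δ) := by
              rw [← ENNReal.ofReal_mul hδ.le, mul_one_div, div_self hδ.ne', ENNReal.ofReal_one]
          _ ≤ _ := by gcongr
      exact h9.trans (le_add_of_le_right (le_add_of_le_right le_rfl))
    push Not at h8
    -- the point is good
    have hgood : τ ∈ Good := by
      refine ⟨hτ, fun k => ?_⟩
      have t1 := h8 k
      have t2 : ‖∑ p ∈ Gs, c k p * ee p τ‖ < 2 * δ := by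
        have h9 : ‖∑ p ∈ Gs, c k p * ee p τ‖ ^ 2 < (2 * δ) ^ 2 := by
          refine lt_of_le_of_lt (single_le_sum (f := fun k => ‖∑ p ∈ Gs, c k p * ee p τ‖ ^ 2)
            (fun _ _ => by positivity) (mem_univ k)) ?_
          calc M τ < 4 * δ ^ 2 := h7
            _ = _ := by ring
        exact lt_of_pow_lt_pow_left₀ 2 (by positivity) h9
      have t3 : ‖∑ p ∈ Gs, (f k p (ee p τ) - c k p * ee p τ)‖ ≤ δ := by
        refine (norm_sum_le_of_le (n := e) _ fun p hp => ?_).trans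
          (hNe _ fun p hp => (hGsp p hp).1)
        exact h.hr k p (hGsp p hp).2 (fun h1 => absurd (hNE p h1) (not_lt.2 (hGsp p hp).1)) _
          (norm_ee p τ)
      have t4 := hnear (fun p => ee p τ) (fun p => norm_ee p τ) hχτ k
      have t5 := hwv k
      have hXs : fS f k X τ = ∑ p ∈ F, f k p (ee p τ) + ∑ p ∈ Gs, f k p (ee p τ) := by
        unfold fS
        have h1 := sum_Ico_filter (fun p => f k p (ee p τ)) hNX
        rw [sub_eq_iff_eq_add] at h1
        rw [h1, add_comm]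
      have hall : G k τ - v k = (G k τ - fS f k X τ) + (∑ p ∈ Gs, c k p * ee p τ) +
          (∑ p ∈ Gs, (f k p (ee p τ) - c k p * ee p τ)) +
          (∑ p ∈ F, f k p (ee p τ) - ∑ p ∈ F, f k p (w p)) +
          (∑ p ∈ F, f k p (w p) - v k) := by
        rw [hXs, sum_sub_distrib]
        ring
      rw [hall]
      have n1 := norm_add_le ((G k τ - fS f k X τ) + (∑ p ∈ Gs, c k p * ee p τ) +
          (∑ p ∈ Gs, (f k p (ee p τ) - c k p * ee p τ)) +
          (∑ p ∈ F, f k p (ee p τ) - ∑ p ∈ F, f k p (w p))) (∑ p ∈ F, f k p (w p) - v k)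
      have n2 := norm_add_le ((G k τ - fS f k X τ) + (∑ p ∈ Gs, c k p * ee p τ) +
          (∑ p ∈ Gs, (f k p (ee p τ) - c k p * ee p τ)))
          (∑ p ∈ F, f k p (ee p τ) - ∑ p ∈ F, f k p (w p))
      have n3 := norm_add_le ((G k τ - fS f k X τ) + (∑ p ∈ Gs, c k p * ee p τ))
          (∑ p ∈ Gs, (f k p (ee p τ) - c k p * ee p τ))
      have n4 := norm_add_le (G k τ - fS f k X τ) (∑ p ∈ Gs, c k p * ee p τ)
      have hε8 : ε = 8 * δ := by
        rw [hδdef]
        ring
      rw [hε8]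
      linarith
    rw [Set.indicator_of_mem hgood]
    exact le_add_of_le_left le_rfl
  -- integrate
  have hRm : AEMeasurable R := by
    simp only [hR]
    refine Finset.aemeasurable_fun_sum _ fun k _ => AEMeasurable.enorm ?_
    exact (aemeasurable_of_tendsto_metrizable_ae atTop
      (fun x => (h.continuous_fS k x).measurable.aemeasurable) (hG k)).sub
      (h.continuous_fS k X).measurable.aemeasurable
  have hRint : ∫⁻ τ in I, R τ ≤ ENNReal.ofReal (K * (2 * T * η₂)) := by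
    have hRk : ∀ k ∈ (univ : Finset κ),
        AEMeasurable (fun τ => ‖G k τ - fS f k X τ‖ₑ) (volume.restrict I) := by
      intro k _
      refine AEMeasurable.restrict (AEMeasurable.enorm ?_)
      exact (aemeasurable_of_tendsto_metrizable_ae atTop
        (fun x => (h.continuous_fS k x).measurable.aemeasurable) (hG k)).sub
        (h.continuous_fS k X).measurable.aemeasurable
    simp only [hR]
    rw [lintegral_finsetSum' _ hRk]
    have h7 : ∀ k ∈ (univ : Finset κ), ∫⁻ τ in I, ‖G k τ - fS f k X τ‖ₑ ≤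
        ENNReal.ofReal (2 * T * η₂) := by
      intro k _
      refine (FP.lint_window _ a hTpos.le (hJ₀ J₁ hJ₁ k)).trans ?_
      rw [← ENNReal.ofReal_natCast, ← ENNReal.ofReal_mul (Nat.cast_nonneg _)]
      refine ENNReal.ofReal_le_ofReal (mul_le_mul_of_nonneg_right ?_ hη₂0.le)
      have := Nat.ceil_lt_add_one hTpos.le
      linarith
    refine (sum_le_sum h7).trans (le_of_eq ?_)
    rw [sum_const, card_univ, nsmul_eq_mul, ENNReal.ofReal_mul hK0, hK, ENNReal.ofReal_natCast]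
  have hfin : ENNReal.ofReal (7 / 8 * Jt * T) ≤ volume Good +
      (ENNReal.ofReal (9 / 32 * Jt * T) + ENNReal.ofReal (Jt / 4 * T)) := by
    calc ENNReal.ofReal (7 / 8 * Jt * T) ≤ ENNReal.ofReal (∫ τ in I, χ τ) :=
          ENNReal.ofReal_le_ofReal i1
      _ = ∫⁻ τ in I, ENNReal.ofReal (χ τ) :=
          ofReal_integral_eq_lintegral_ofReal hχint (ae_of_all _ fun τ => (hχ01 τ).1)
      _ ≤ ∫⁻ τ in I, (Good.indicator (fun _ => 1) τ +
            (ENNReal.ofReal (χ τ * M τ) * ENNReal.ofReal (1 / (4 * δ ^ 2)) +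
            R τ * ENNReal.ofReal (1 / δ))) := by
          exact lintegral_mono_ae ((ae_restrict_iff' measurableSet_Ioc).2 (ae_of_all _ hpt))
      _ = (∫⁻ τ in I, Good.indicator (fun _ => 1) τ) +
            ((∫⁻ τ in I, ENNReal.ofReal (χ τ * M τ)) * ENNReal.ofReal (1 / (4 * δ ^ 2)) +
            (∫⁻ τ in I, R τ) * ENNReal.ofReal (1 / δ)) := by
          have m1 : Measurable fun τ => ENNReal.ofReal (χ τ * M τ) *
              ENNReal.ofReal (1 / (4 * δ ^ 2)) :=
            (hχm.mul hMc.measurable).ennreal_ofReal.mul_const _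
          have m2 : AEMeasurable (fun τ => R τ * ENNReal.ofReal (1 / δ)) (volume.restrict I) :=
            (hRm.mul_const _).restrict
          have m3 : AEMeasurable (fun τ => ENNReal.ofReal (χ τ * M τ) *
              ENNReal.ofReal (1 / (4 * δ ^ 2)) + R τ * ENNReal.ofReal (1 / δ))
              (volume.restrict I) := m1.aemeasurable.add m2
          rw [lintegral_add_right' _ m3, lintegral_add_left m1,
            lintegral_mul_const' _ _ ENNReal.ofReal_ne_top,
            lintegral_mul_const' _ _ ENNReal.ofReal_ne_top]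
      _ ≤ volume Good + (ENNReal.ofReal (9 / 32 * Jt * T) + ENNReal.ofReal (Jt / 4 * T)) := by
          refine add_le_add ?_ (add_le_add ?_ ?_)
          · refine (lintegral_indicator_const_le _ _).trans ?_
            rw [one_mul]
            exact Measure.restrict_apply_le _ _
          · rw [← ofReal_integral_eq_lintegral_ofReal hMint
              (ae_of_all _ fun τ => mul_nonneg (hχ01 τ).1 (hM0 τ)),
              ← ENNReal.ofReal_mul (integral_nonneg fun τ => mul_nonneg (hχ01 τ).1 (hM0 τ))]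
            refine ENNReal.ofReal_le_ofReal ?_
            rw [mul_one_div, div_le_iff₀ (by positivity)]
            refine i2.trans (le_of_eq ?_)
            ring
          · refine (mul_le_mul_left hRint _).trans ?_
            rw [← ENNReal.ofReal_mul (by positivity)]
            refine ENNReal.ofReal_le_ofReal ?_
            have h7 : K * (2 * T * η₂) * (1 / δ) = K / (K + 1) * (Jt / 4 * T) := by
              rw [hη₂]
              field_simp
              ring
            rw [h7]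
            have h8 : K / (K + 1) ≤ 1 := by
              rw [div_le_one (by positivity)]
              linarith
            calc K / (K + 1) * (Jt / 4 * T) ≤ 1 * (Jt / 4 * T) :=
                  mul_le_mul_of_nonneg_right h8 (by positivity)
              _ = _ := one_mul _
  by_contra hcon
  push Not at hcon
  have h7 : volume Good + (ENNReal.ofReal (9 / 32 * Jt * T) + ENNReal.ofReal (Jt / 4 * T)) <
      ENNReal.ofReal (Jt / 4 * T) + (ENNReal.ofReal (9 / 32 * Jt * T) +
        ENNReal.ofReal (Jt / 4 * T)) := by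
    refine ENNReal.add_lt_add_right ?_ hcon
    exact ENNReal.add_ne_top.2 ⟨ENNReal.ofReal_ne_top, ENNReal.ofReal_ne_top⟩
  rw [← ENNReal.ofReal_add (by positivity) (by positivity),
    ← ENNReal.ofReal_add (by positivity) (by positivity)] at h7
  rw [← ENNReal.ofReal_add (by positivity) (by positivity)] at hfin
  have h8 := hfin.trans_lt h7
  rw [ENNReal.ofReal_lt_ofReal_iff (by positivity)] at h8
  nlinarith [mul_pos hJt0 hTpos]

end Pool.Agent.Y774.JD
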