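import Pool.Agent.Y774.JD.Ext
import Pool.Agent.Y774.FP.Main

/-!
# Elliptic curves over number fields
-/

set_option autoImplicit false

namespace Pool.Agent.Y774.JD

open Filter Topology MeasureTheory Finset Polynomial NumberField IsDedekindDomain
  Pool.Agent.H921R2.TatePole Pool.Agent.TH958.BV Pool.Agent.Y774.MD
open Pool.Agent.TH339.MP (av av_triv)
open Pool.Agent.Y774.FP (BW ev BW_eval BW_coeff BW_small BW_goodAt BW_tempered norm_ev)

/-- Continuous functions with values in `2πiℤ` are constant. -/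
lemma exp_one_zero {S : Set ℂ} (hS : IsPreconnected S) {d : ℂ → ℂ} (hd : ContinuousOn d S)
    (h1 : ∀ z ∈ S, Complex.exp (d z) = 1) {z₀ : ℂ} (hz₀ : z₀ ∈ S) (h0 : d z₀ = 0) :
    ∀ z ∈ S, d z = 0 := by
  set r : ℂ → ℝ := fun z => (d z).im / (2 * Real.pi) with hr
  have hrc : ContinuousOn r S := (Complex.continuous_im.comp_continuousOn hd).div_const _
  have hint : ∀ z ∈ S, ∃ n : ℤ, r z = n ∧ d z = n * (2 * Real.pi * Complex.I) := by
    intro z hz
    obtain ⟨n, hn⟩ := Complex.exp_eq_one_iff.1 (h1 z hz)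
    refine ⟨n, ?_, hn⟩
    simp only [hr]
    rw [hn]
    have h2 : ((n : ℂ) * (2 * Real.pi * Complex.I)).im = n * (2 * Real.pi) := by
      have h3 : ((n : ℂ) * (2 * Real.pi * Complex.I)) = ((n * (2 * Real.pi) : ℝ) : ℂ) * Complex.I := by
        push_cast
        ring
      rw [h3, Complex.mul_I_im, Complex.ofReal_re]
    rw [h2, mul_div_assoc, div_self (by positivity), mul_one]
  have hord : (r '' S).OrdConnected := (hS.image r hrc).ordConnected
  have h00 : (0 : ℝ) ∈ r '' S := ⟨z₀, hz₀, by simp [hr, h0]⟩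
  intro z hz
  obtain ⟨n, hn, hdn⟩ := hint z hz
  have hn0 : n = 0 := by
    by_contra hne
    have hnz : r z ∈ r '' S := ⟨z, hz, rfl⟩
    rcases lt_or_gt_of_ne hne with h2 | h2
    · have h3 : (n : ℝ) ≤ -1 := by exact_mod_cast (by omega : n ≤ -1)
      obtain ⟨z', hz', h4⟩ := hord.out hnz h00 (show (-1 / 2 : ℝ) ∈ Set.Icc (r z) 0 by
        rw [hn]
        constructor <;> linarith)
      obtain ⟨n', hn', -⟩ := hint z' hz'
      rw [hn'] at h4
      have h5 : (n' : ℝ) * 2 = -1 := by linarith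
      have h6 : n' * 2 = -1 := by exact_mod_cast h5
      omega
    · have h3 : (1 : ℝ) ≤ n := by exact_mod_cast (by omega : 1 ≤ n)
      obtain ⟨z', hz', h4⟩ := hord.out h00 hnz (show (1 / 2 : ℝ) ∈ Set.Icc 0 (r z) by
        rw [hn]
        constructor <;> linarith)
      obtain ⟨n', hn', -⟩ := hint z' hz'
      rw [hn'] at h4
      have h5 : (n' : ℝ) * 2 = 1 := by linarith
      have h6 : n' * 2 = 1 := by exact_mod_cast h5
      omega
  rw [hdn, hn0]
  simp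

section

variable {K : Type} [Field K] [NumberField K]
  (W : HeightOneSpectrum (𝓞 K) → WeierstrassCurve (𝓞 K))

lemma BW_slit (v : HeightOneSpectrum (𝓞 K)) {z : ℂ} (hz : ‖z‖ ≤ (nm v : ℝ) ^ (-(3 / 2) : ℝ)) :
    (BW W v).eval z ∈ Complex.slitPlane := by
  have hq2 : (2 : ℝ) ≤ nm v := by exact_mod_cast two_le_nm v
  have hq0 : (0 : ℝ) < nm v := by linarith
  have h1 : (nm v : ℝ) * (nm v : ℝ) ^ (-(3 / 2) : ℝ) ≤ 708 / 1000 := by
    have e1 : (nm v : ℝ) * (nm v : ℝ) ^ (-(3 / 2) : ℝ) = (Real.sqrt (nm v))⁻¹ := by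
      rw [Real.sqrt_eq_rpow, ← Real.rpow_neg hq0.le]
      nth_rewrite 1 [← Real.rpow_one (nm v : ℝ)]
      rw [← Real.rpow_add hq0]
      norm_num
    rw [e1, inv_le_comm₀ (Real.sqrt_pos.2 hq0) (by norm_num)]
    refine Real.le_sqrt_of_sq_le ?_
    norm_num
    linarith
  have h2 : (nm v : ℝ) * ((nm v : ℝ) ^ (-(3 / 2) : ℝ)) ^ 2 ≤ 1 / 4 := by
    have e1 : (nm v : ℝ) * ((nm v : ℝ) ^ (-(3 / 2) : ℝ)) ^ 2 = ((nm v : ℝ) ^ 2)⁻¹ := by
      rw [← Real.rpow_natCast, ← Real.rpow_mul hq0.le]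
      nth_rewrite 1 [← Real.rpow_one (nm v : ℝ)]
      rw [← Real.rpow_add hq0, ← Real.rpow_natCast (nm v : ℝ) 2, ← Real.rpow_neg hq0.le]
      norm_num
    rw [e1, inv_le_comm₀ (by positivity) (by norm_num)]
    nlinarith
  have h3 : ‖((av W v : ℝ) : ℂ) * z‖ ≤ 708 / 1000 := by
    rw [norm_mul, Complex.norm_real, Real.norm_eq_abs]
    exact (mul_le_mul (av_triv W v) hz (norm_nonneg _) hq0.le).trans h1
  have h4 : ‖ev W v * z ^ 2‖ ≤ 1 / 4 := by
    rw [norm_mul, norm_pow]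
    exact (mul_le_mul (norm_ev W v) (pow_le_pow_left₀ (norm_nonneg _) hz 2) (by positivity)
      hq0.le).trans h2
  have h5 : (BW W v).eval z = 1 - (((av W v : ℝ) : ℂ) * z - ev W v * z ^ 2) := by
    rw [BW_eval]
    ring
  rw [h5]
  have h6 : ‖((av W v : ℝ) : ℂ) * z - ev W v * z ^ 2‖ < 1 := by
    refine (norm_sub_le _ _).trans_lt ?_
    linarith
  have h7 := one_sub_slit (a := ((av W v : ℝ) : ℂ) * z - ev W v * z ^ 2) (z := 1)
    (by rwa [mul_one])
  rwa [mul_one] at h7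

/-- The argument of the factor at `v`. -/
noncomputable def arg' (v : HeightOneSpectrum (𝓞 K)) (z : ℂ) : ℂ :=
  (((nm v : ℝ) ^ (-((1 : ℝ) / 2)) : ℝ) : ℂ) * z ^ deg v

lemma norm_arg' {p : ℕ} (hp : p.Prime) {v : HeightOneSpectrum (𝓞 K)} (hv : below v = ⟨p, hp⟩)
    {z : ℂ} (hz : ‖z‖ ≤ 1 / p) : ‖arg' v z‖ ≤ (nm v : ℝ) ^ (-(3 / 2) : ℝ) := by
  obtain ⟨h1, h2, -⟩ := nm_eq v
  have hb : ((below v : Nat.Primes) : ℕ) = p := by rw [hv]
  rw [hb] at h1
  have hn : (0 : ℝ) < nm v := by exact_mod_cast MD.nm_pos v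
  unfold arg'
  rw [norm_mul, norm_pow, Complex.norm_real, Real.norm_of_nonneg (by positivity)]
  have h3 : ‖z‖ ^ deg v ≤ (nm v : ℝ) ^ (-1 : ℝ) := by
    calc ‖z‖ ^ deg v ≤ (1 / (p : ℝ)) ^ deg v := pow_le_pow_left₀ (norm_nonneg _) hz _
      _ = (nm v : ℝ) ^ (-1 : ℝ) := by
          rw [h1, Real.rpow_neg_one, Nat.cast_pow, one_div, inv_pow]
  calc (nm v : ℝ) ^ (-((1 : ℝ) / 2)) * ‖z‖ ^ deg v
      ≤ (nm v : ℝ) ^ (-((1 : ℝ) / 2)) * (nm v : ℝ) ^ (-1 : ℝ) :=
        mul_le_mul_of_nonneg_left h3 (by positivity)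
    _ = (nm v : ℝ) ^ (-(3 / 2) : ℝ) := by
        rw [← Real.rpow_add hn]
        norm_num

/-- The logarithm of the product of the factors above `p`. -/
lemma LG_GP {p : ℕ} (hp : p.Prime) {z : ℂ} (hz : ‖z‖ ≤ 1 / p) :
    LG (inv (GP (BW W) 1 p)) z =
      ∑ v : {v : HeightOneSpectrum (𝓞 K) // below v = ⟨p, hp⟩},
        -Complex.log ((BW W v.1).eval (arg' v.1 z)) := by
  have hq0 : (0 : ℝ) < p := by exact_mod_cast hp.pos
  have hg := BW_goodAt W hp
  obtain ⟨b, hb1, hb2⟩ := hg.radius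
  have hb0 : 0 < b := lt_trans (by positivity) hb1
  have hslit : ∀ z ∈ Metric.closedBall (0 : ℂ) (1 / (p : ℝ)), ∀ a ∈ inv (GP (BW W) 1 p),
      1 - a * z ∈ Complex.slitPlane := by
    intro z hz a ha
    refine one_sub_slit ?_
    rw [norm_mul]
    calc ‖a‖ * ‖z‖ ≤ b⁻¹ * (1 / p) :=
          mul_le_mul (norm_inv_le hg.1 hb0 hb2 a ha) (by simpa using hz) (norm_nonneg _)
            (by positivity)
      _ < b⁻¹ * b := mul_lt_mul_of_pos_left hb1 (by positivity)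
      _ = 1 := inv_mul_cancel₀ hb0.ne'
  set d : ℂ → ℂ := fun z => LG (inv (GP (BW W) 1 p)) z -
    ∑ v : {v : HeightOneSpectrum (𝓞 K) // below v = ⟨p, hp⟩},
        -Complex.log ((BW W v.1).eval (arg' v.1 z)) with hd
  have hdc : ContinuousOn d (Metric.closedBall (0 : ℂ) (1 / (p : ℝ))) := by
    intro z hz
    refine ContinuousAt.continuousWithinAt (ContinuousAt.sub (continuousAt_LG (hslit z hz)) ?_)
    refine tendsto_finsetSum _ fun v _ => ?_
    refine ContinuousAt.neg (ContinuousAt.clog ?_ (BW_slit W v.1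
      (norm_arg' hp v.2 (by simpa using hz))))
    refine ((BW W v.1).continuous.comp ?_).continuousAt
    unfold arg'
    fun_prop
  have hexp : ∀ z ∈ Metric.closedBall (0 : ℂ) (1 / (p : ℝ)), Complex.exp (d z) = 1 := by
    intro z hz
    simp only [hd]
    have hz' : ‖z‖ ≤ 1 / p := by simpa using hz
    have h1 : Complex.exp (LG (inv (GP (BW W) 1 p)) z) = ((GP (BW W) 1 p).eval z)⁻¹ := by
      rw [eval_inv hg.1, exp_LG]
      exact fun a ha => Complex.slitPlane_ne_zero (hslit z hz a ha)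
    have h2 : Complex.exp (∑ v : {v : HeightOneSpectrum (𝓞 K) // below v = ⟨p, hp⟩},
        -Complex.log ((BW W v.1).eval (arg' v.1 z))) = ((GP (BW W) 1 p).eval z)⁻¹ := by
      rw [Complex.exp_sum, GP_eval (BW W) 1 hp, ← prod_inv_distrib]
      refine prod_congr rfl fun v _ => ?_
      rw [Complex.exp_neg, Complex.exp_log (Complex.slitPlane_ne_zero (BW_slit W v.1
        (norm_arg' hp v.2 hz')))]
      rfl
    rw [Complex.exp_sub, h1, h2, div_self]
    intro h3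
    have h4 := Complex.exp_ne_zero (LG (inv (GP (BW W) 1 p)) z)
    rw [h1] at h4
    exact h4 h3
  have h00 : d 0 = 0 := by
    simp only [hd]
    rw [LG_zero, zero_sub, neg_eq_zero]
    refine sum_eq_zero fun v _ => ?_
    have h1 : arg' v.1 0 = 0 := by
      unfold arg'
      rw [zero_pow (nm_eq v.1).2.1.ne', mul_zero]
    rw [h1, ← coeff_zero_eq_eval_zero, BW_coeff, Complex.log_one, neg_zero]
  have h1 := exp_one_zero (convex_closedBall (0 : ℂ) (1 / (p : ℝ))).isPreconnected hdc hexp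
    (Metric.mem_closedBall_self (by positivity)) h00 z (by simpa using hz)
  exact sub_eq_zero.1 h1

lemma arg'_cpow {p : ℕ} (hp : p.Prime) {v : HeightOneSpectrum (𝓞 K)} (hv : below v = ⟨p, hp⟩)
    (s : ℂ) : arg' v ((p : ℂ) ^ (-s)) = (nm v : ℂ) ^ (-(s + 1 / 2)) := by
  obtain ⟨h1, h2, _⟩ := nm_eq v
  have hb : ((below v : Nat.Primes) : ℕ) = p := by
    rw [hv]
  rw [hb] at h1
  have hq : 0 < nm v := MD.nm_pos v
  have hqr : (0 : ℝ) < nm v := by exact_mod_cast hq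
  unfold arg'
  rw [natCast_cpow_eq hp.pos, natCast_cpow_eq hq, ← Complex.exp_nat_mul,
    Real.rpow_def_of_pos hqr, Complex.ofReal_exp, ← Complex.exp_add]
  congr 1
  have h3 : Real.log (nm v) = deg v * Real.log p := by
    rw [h1, Nat.cast_pow, Real.log_pow]
  rw [h3]
  push_cast
  ring

/-- The logarithm of the factors above `p` in terms of the places. -/
lemma lt_GP {p : ℕ} (hp : p.Prime) {s : ℂ} (hs : 1 ≤ s.re) :
    lt (GP (BW W) 1) p s =
      ∑ᶠ v ∈ {v : HeightOneSpectrum (𝓞 K) | (p : 𝓞 K) ∈ v.asIdeal},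
        -Complex.log ((BW W v).eval ((nm v : ℂ) ^ (-(s + 1 / 2)))) := by
  unfold lt
  rw [if_pos hp, LG_GP W hp (FP.norm_pow_le hp hs)]
  have h1 : {v : HeightOneSpectrum (𝓞 K) | (p : 𝓞 K) ∈ v.asIdeal} =
      {v : HeightOneSpectrum (𝓞 K) | below v = ⟨p, hp⟩} := by
    ext v
    exact FP.mem_iff_below hp v
  rw [h1, ← finsum_set_coe_eq_finsum_mem]
  refine Eq.trans (sum_congr rfl fun v _ => ?_)
    (finsum_eq_sum_of_fintype (fun v : {v : HeightOneSpectrum (𝓞 K) // below v = ⟨p, hp⟩} =>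
    -Complex.log ((BW W v.1).eval ((nm v.1 : ℂ) ^ (-(s + 1 / 2)))))).symm
  rw [arg'_cpow hp v.2]

/-- The coefficient. -/
lemma coeff_one_prod {α : Type*} (s : Finset α) (f : α → ℂ[X]) (h : ∀ i ∈ s, (f i).coeff 0 = 1) :
    (∏ i ∈ s, f i).coeff 0 = 1 ∧ (∏ i ∈ s, f i).coeff 1 = ∑ i ∈ s, (f i).coeff 1 := by
  classical
  induction s using Finset.induction_on with
  | empty => simp [coeff_one]
  | insert a s ha ih =>
    obtain ⟨h1, h2⟩ := ih fun i hi => h i (mem_insert_of_mem hi)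
    have h3 := h a (mem_insert_self _ _)
    rw [prod_insert ha, sum_insert ha]
    refine ⟨by rw [mul_coeff_zero, h1, h3, mul_one], ?_⟩
    rw [mul_coeff_one, h1, h2, h3]
    ring

/-- The coefficient `a_p`, the sum of the `a_v` over the places of norm `p`. -/
noncomputable def ap (p : ℕ) : ℂ :=
  ∑ᶠ v ∈ {v : HeightOneSpectrum (𝓞 K) | Ideal.absNorm v.asIdeal = p}, ((av W v : ℝ) : ℂ)

lemma below_of_nm {p : ℕ} (hp : p.Prime) {v : HeightOneSpectrum (𝓞 K)} (h : nm v = p) :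
    below v = ⟨p, hp⟩ ∧ deg v = 1 := by
  obtain ⟨h1, h2, -⟩ := nm_eq v
  rw [h] at h1
  have h3 : ((below v : Nat.Primes) : ℕ) ∣ p := by
    rw [h1]
    exact dvd_pow_self _ h2.ne'
  have h4 : ((below v : Nat.Primes) : ℕ) = p :=
    (Nat.prime_dvd_prime_iff_eq (below v).2 hp).1 h3
  refine ⟨Subtype.ext h4, ?_⟩
  rw [h4] at h1
  have h5 : p ^ 1 = p ^ deg v := by rw [pow_one]; exact h1
  exact (Nat.pow_right_injective hp.two_le h5).symm

lemma coeff_GP {p : ℕ} (hp : p.Prime) :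
    (GP (BW W) 1 p).coeff 1 = -((((p : ℝ) ^ (-((1 : ℝ) / 2)) : ℝ) : ℂ) * ap W p) := by
  classical
  unfold GP
  rw [dif_pos hp]
  have hc0 : ∀ v : {v : HeightOneSpectrum (𝓞 K) // below v = ⟨p, hp⟩},
      ((BW W v.1).comp (C ((((nm v.1 : ℝ) ^ (-((1 : ℝ) / 2)) : ℝ) : ℂ)) * X ^ deg v.1)).coeff 0 =
        1 := by
    intro v
    rw [coeff_zero_eq_eval_zero, eval_comp, eval_mul, eval_pow, eval_X,
      zero_pow (nm_eq v.1).2.1.ne', mul_zero, ← coeff_zero_eq_eval_zero, BW_coeff]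
  have hc1 : ∀ v : {v : HeightOneSpectrum (𝓞 K) // below v = ⟨p, hp⟩},
      ((BW W v.1).comp (C ((((nm v.1 : ℝ) ^ (-((1 : ℝ) / 2)) : ℝ) : ℂ)) * X ^ deg v.1)).coeff 1 =
        if nm v.1 = p then -((((p : ℝ) ^ (-((1 : ℝ) / 2)) : ℝ) : ℂ) * ((av W v.1 : ℝ) : ℂ))
        else 0 := by
    intro v
    obtain ⟨h1, h2, -⟩ := nm_eq v.1
    have hb : ((below v.1 : Nat.Primes) : ℕ) = p := by
      rw [v.2]
    rw [hb] at h1
    set c : ℂ := (((nm v.1 : ℝ) ^ (-((1 : ℝ) / 2)) : ℝ) : ℂ) with hc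
    have hcomp : (BW W v.1).comp (C c * X ^ deg v.1) =
        1 - C (((av W v.1 : ℝ) : ℂ) * c) * X ^ deg v.1 +
          C (ev W v.1 * c ^ 2) * X ^ (deg v.1 * 2) := by
      unfold BW
      simp only [add_comp, sub_comp, one_comp, mul_comp, C_comp, X_comp, pow_comp]
      rw [mul_pow, ← pow_mul]
      simp only [C_mul, C_pow]
      ring
    rw [hcomp, coeff_add, coeff_sub, coeff_C_mul_X_pow, coeff_C_mul_X_pow, coeff_one,
      if_neg one_ne_zero, if_neg (show ¬ 1 = deg v.1 * 2 by omega)]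
    split_ifs with h3 h4 h4
    · rw [hc, h4]
      ring
    · exfalso
      rw [← h3, pow_one] at h1
      exact h4 h1
    · exfalso
      exact h3 (below_of_nm hp h4).2.symm
    · ring
  have h1 := (coeff_one_prod (univ : Finset {v : HeightOneSpectrum (𝓞 K) // below v = ⟨p, hp⟩})
    (fun v => (BW W v.1).comp (C ((((nm v.1 : ℝ) ^ (-((1 : ℝ) / 2)) : ℝ) : ℂ)) * X ^ deg v.1))
    (fun v _ => hc0 v)).2
  refine h1.trans ?_
  rw [sum_congr rfl fun v _ => hc1 v]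
  have h2 : ap W p = ∑ v : {v : HeightOneSpectrum (𝓞 K) // below v = ⟨p, hp⟩},
      if nm v.1 = p then ((av W v.1 : ℝ) : ℂ) else 0 := by
    unfold ap
    refine Eq.trans ?_ (finsum_eq_sum_of_fintype
      (fun v : {v : HeightOneSpectrum (𝓞 K) // below v = ⟨p, hp⟩} =>
        if nm v.1 = p then ((av W v.1 : ℝ) : ℂ) else 0))
    refine Eq.trans ?_ (finsum_set_coe_eq_finsum_mem
      (s := {v : HeightOneSpectrum (𝓞 K) | below v = ⟨p, hp⟩})
      (f := fun v : HeightOneSpectrum (𝓞 K) => if nm v = p then ((av W v : ℝ) : ℂ) else 0)).symm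
    refine finsum_congr fun v => ?_
    by_cases h4 : nm v = p
    · have h5 : v ∈ {v : HeightOneSpectrum (𝓞 K) | below v = ⟨p, hp⟩} := (below_of_nm hp h4).1
      have h6 : v ∈ {v : HeightOneSpectrum (𝓞 K) | Ideal.absNorm v.asIdeal = p} := h4
      simp only [h5, h6, finsum_true, h4, if_true]
    · have h6 : v ∉ {v : HeightOneSpectrum (𝓞 K) | Ideal.absNorm v.asIdeal = p} := h4
      simp only [h6, finsum_false, h4, if_false]
      simp
  rw [h2, mul_sum, ← sum_neg_distrib]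
  refine sum_congr rfl fun v _ => ?_
  split_ifs
  · rfl
  · simp

/-- The coefficients of the logarithm. -/
lemma cc_GP {p : ℕ} (hp : p.Prime) {E : Finset ℕ} (hpE : p ∉ E) :
    cc (GP (BW W) 1) E p = ap W p * (((p : ℝ) ^ (-((3 : ℝ) / 2)) : ℝ) : ℂ) := by
  unfold cc
  rw [if_neg hpE, coeff_GP W hp, neg_neg]
  have hp0 : (0 : ℝ) < p := by exact_mod_cast hp.pos
  have h1 : (p : ℝ) ^ (-((3 : ℝ) / 2)) = (p : ℝ) ^ (-((1 : ℝ) / 2)) * (p : ℝ)⁻¹ := by
    rw [← Real.rpow_neg_one, ← Real.rpow_add hp0]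
    norm_num
  rw [h1]
  push_cast
  ring

end

end Pool.Agent.Y774.JD
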