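import Pool.Agent.Y774.JD.Log

/-!
# The bounded alternative
-/

set_option autoImplicit false

namespace Pool.Agent.Y774.JD

open Filter Topology MeasureTheory Finset Pool.Agent.W350.Edge Pool.Agent.Y774.MD Polynomial
open scoped ENNReal

variable {κ : Type} [Fintype κ] {J : Type} [Fintype J] {Q : κ → ℕ → ℂ[X]} {D : κ → ℕ}
  {θ C : κ → ℝ} {E : Finset ℕ}

/-- The logarithm of an Euler factor is bounded. -/
lemma lt_bounded {P : ℕ → ℂ[X]} {p : ℕ} (hp : p.Prime) (hg : GoodAt (P p) p) :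
    ∃ M : ℝ, ∀ s : ℂ, 1 ≤ s.re → ‖lt P p s‖ ≤ M := by
  have hq0 : (0 : ℝ) < p := by exact_mod_cast hp.pos
  obtain ⟨b, hb1, hb2⟩ := hg.radius
  have hb0 : 0 < b := lt_trans (by positivity) hb1
  have hc : ContinuousOn (LG (inv (P p))) (Metric.closedBall 0 (1 / (p : ℝ))) := by
    intro z hz
    refine ContinuousAt.continuousWithinAt (continuousAt_LG fun a ha => one_sub_slit ?_)
    rw [norm_mul]
    calc ‖a‖ * ‖z‖ ≤ b⁻¹ * (1 / p) :=
          mul_le_mul (norm_inv_le hg.1 hb0 hb2 a ha) (by simpa using hz) (norm_nonneg _)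
            (by positivity)
      _ < b⁻¹ * b := mul_lt_mul_of_pos_left hb1 (by positivity)
      _ = 1 := inv_mul_cancel₀ hb0.ne'
  obtain ⟨M, hM⟩ := (isCompact_closedBall (0 : ℂ) (1 / (p : ℝ))).exists_bound_of_continuousOn hc
  refine ⟨M, fun s hs => ?_⟩
  unfold lt
  rw [if_pos hp]
  exact hM _ (by simpa using FP.norm_pow_le hp hs)

/-- The linear combination of the logarithms. -/
noncomputable def lc (Q : κ → ℕ → ℂ[X]) (t : κ → ℝ) (b : κ → ℂ) (s : ℂ) : ℂ :=
  ∑ k, b k * LL (Q k) (s + t k * Complex.I)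

/-- **The bounded alternative.** -/
theorem bounded_ext (h : ∀ k, IsEuler (Q k) (D k) (θ k) (C k) E)
    (hg : ∀ k p, p.Prime → GoodAt (Q k p) p) (t : κ → ℝ) (b : κ → ℂ)
    (hs : Summable fun p : ℕ =>
      if p.Prime then ‖∑ k, b k * (cc (Q k) E p * rot p (t k))‖ else 0) :
    ∃ Φ : ℂ → ℂ, ContinuousOn Φ {s | 1 ≤ s.re} ∧ (∃ B : ℝ, ∀ s : ℂ, 1 ≤ s.re → ‖Φ s‖ ≤ B) ∧
      ∀ s : ℂ, 1 < s.re → Φ s = lc Q t b s := by
  classical
  have hre : ∀ (s : ℂ) (u : ℝ), (s + u * Complex.I).re = s.re := by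
    intro s u
    simp
  set T : ℕ → ℂ → ℂ := fun p s => ∑ k, b k * lt (Q k) p (s + t k * Complex.I) with hT
  have hM : ∀ p : ℕ, ∃ M : ℝ, ∀ s : ℂ, 1 ≤ s.re → ‖T p s‖ ≤ M := by
    intro p
    by_cases hp : p.Prime
    · choose M hM using fun k => lt_bounded hp (hg k p hp)
      refine ⟨∑ k, ‖b k‖ * M k, fun s hs => norm_sum_le_of_le _ fun k _ => ?_⟩
      rw [norm_mul]
      exact mul_le_mul_of_nonneg_left (hM k _ (by rwa [hre])) (norm_nonneg _)
    · refine ⟨0, fun s _ => ?_⟩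
      simp only [hT]
      rw [sum_eq_zero, norm_zero]
      intro k _
      unfold lt
      rw [if_neg hp, mul_zero]
  choose M hM using hM
  set u : ℕ → ℝ := fun p => if p ∈ E then M p else
    ((if p.Prime then ‖∑ k, b k * (cc (Q k) E p * rot p (t k))‖ else 0) +
      ∑ k, ‖b k‖ * (2 * D k * (p : ℝ) ^ (2 * θ k - 2))) with hu
  have husum : Summable u := by
    have h1 : Summable fun p : ℕ =>
        ((if p.Prime then ‖∑ k, b k * (cc (Q k) E p * rot p (t k))‖ else 0) +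
      ∑ k, ‖b k‖ * (2 * D k * (p : ℝ) ^ (2 * θ k - 2))) :=
      hs.add (summable_sum fun k _ => (summable_e (h k)).mul_left _)
    refine (summable_congr_cofinite ?_).1 h1
    have h2 : ∀ᶠ p : ℕ in cofinite, p ∉ E := E.finite_toSet.compl_mem_cofinite
    filter_upwards [h2] with p hp
    simp only [hu]
    rw [if_neg hp]
  have hbound : ∀ (p : ℕ) (s : ℂ), s ∈ {s : ℂ | 1 ≤ s.re} → ‖T p s‖ ≤ u p := by
    intro p s hs1
    have hs1' : 1 ≤ s.re := hs1
    simp only [hu]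
    split_ifs with hpE hp
    · exact hM p s hs1'
    · have h1 : T p s = Complex.exp (-(s - 1) * Real.log p) *
          (∑ k, b k * (cc (Q k) E p * rot p (t k))) +
          ∑ k, b k * Rm (Q k) p (s + t k * Complex.I) := by
        simp only [hT]
        rw [mul_sum, ← sum_add_distrib]
        refine sum_congr rfl fun k _ => ?_
        have h2 := (h k).LG_eq hp hpE (s - 1) (t k)
        have h3 : (1 + (s - 1) + (t k : ℂ) * Complex.I) = s + t k * Complex.I := by ring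
        rw [h3] at h2
        unfold lt rot
        rw [if_pos hp, h2]
        ring
      rw [h1]
      refine (norm_add_le _ _).trans (add_le_add ?_ ?_)
      · rw [norm_mul]
        have h4 : ‖Complex.exp (-(s - 1) * Real.log p)‖ ≤ 1 := by
          rw [Complex.norm_exp, Complex.mul_re, Complex.ofReal_re, Complex.ofReal_im, mul_zero,
            sub_zero, Complex.neg_re, Complex.sub_re, Complex.one_re]
          refine Real.exp_le_one_iff.2 ?_
          have := Real.log_natCast_nonneg p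
          nlinarith
        calc _ ≤ 1 * ‖∑ k, b k * (cc (Q k) E p * rot p (t k))‖ :=
              mul_le_mul_of_nonneg_right h4 (norm_nonneg _)
          _ = _ := one_mul _
      · refine norm_sum_le_of_le _ fun k _ => ?_
        rw [norm_mul]
        exact mul_le_mul_of_nonneg_left ((h k).norm_Rm hp hpE (by rwa [hre])) (norm_nonneg _)
    · simp only [hT]
      rw [sum_eq_zero, norm_zero]
      · positivity
      · intro k _
        unfold lt
        rw [if_neg hp, mul_zero]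
  refine ⟨fun s => ∑' p, T p s, continuousOn_tsum (fun p => ?_) husum hbound,
    ⟨∑' p, u p, fun s hs1 => ?_⟩, fun s hs1 => ?_⟩
  · intro s hs1
    have hs1' : 1 ≤ s.re := hs1
    refine ContinuousAt.continuousWithinAt ?_
    by_cases hp : p.Prime
    · refine tendsto_finsetSum _ fun k _ => ?_
      have h1 : ContinuousAt (fun s : ℂ => lt (Q k) p (s + t k * Complex.I)) s :=
        ContinuousAt.comp (f := fun s : ℂ => s + t k * Complex.I) (g := fun s => lt (Q k) p s)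
          (continuousAt_lt hp (hg k p hp) (by rwa [hre])) (by fun_prop)
      exact continuousAt_const.mul h1
    · have h1 : T p = fun _ => 0 := by
        funext s
        simp only [hT]
        refine sum_eq_zero fun k _ => ?_
        unfold lt
        rw [if_neg hp, mul_zero]
      rw [h1]
      exact continuousAt_const
  · exact tsum_of_norm_bounded husum.hasSum fun p => hbound p s hs1
  · unfold lc LL
    simp_rw [← tsum_mul_left]
    rw [← Summable.tsum_finsetSum fun k _ => (summable_lt (h k) (by rwa [hre])).mul_left _]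

/-- Boundary values of a bounded combination are bounded. -/
lemma bounded_edge (h : ∀ k, IsEuler (Q k) (D k) (θ k) (C k) E)
    (hg : ∀ k p, p.Prime → GoodAt (Q k p) p) (t : κ → ℝ) (b : κ → ℂ) {B : ℝ}
    (hB : ∀ s : ℂ, 1 < s.re → ‖lc Q t b s‖ ≤ B) :
    ∀ᵐ τ : ℝ, ‖∑ k, b k * lE (Q k) (τ + t k)‖ ≤ B := by
  have h1 : ∀ᵐ τ : ℝ, ∀ k, Tendsto
      (fun σ : ℝ => LL (Q k) (1 + σ + ((τ + t k : ℝ) : ℂ) * Complex.I)) (𝓝[>] 0)
      (𝓝 (lE (Q k) (τ + t k))) := by
    rw [ae_all_iff]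
    intro k
    filter_upwards [ae_shift (log_edge' (h k) (hg k)) (t k)] with τ hτ
    exact hτ.1
  filter_upwards [h1] with τ hτ
  have h2 : Tendsto (fun σ : ℝ => ∑ k, b k *
      LL (Q k) (1 + σ + ((τ + t k : ℝ) : ℂ) * Complex.I)) (𝓝[>] 0)
      (𝓝 (∑ k, b k * lE (Q k) (τ + t k))) :=
    tendsto_finsetSum _ fun k _ => (hτ k).const_mul _
  refine le_of_tendsto h2.norm ?_
  filter_upwards [self_mem_nhdsWithin] with σ hσ
  have hσ' : (0 : ℝ) < σ := hσ
  have h3 := hB (1 + σ + τ * Complex.I) (by simp [hσ'])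
  unfold lc at h3
  refine le_trans (le_of_eq ?_) h3
  congr 1
  refine sum_congr rfl fun k _ => ?_
  congr 2
  push_cast
  ring

/-- Open sets are visited by a positive proportion of every long window. -/
def Visits {J : Type} (G : J → ℝ → ℂ) : Prop :=
  ∀ Ω : Set (J → ℂ), IsOpen Ω → Ω.Nonempty → ∃ ρ : ℝ, 0 < ρ ∧ ∃ T₀ : ℝ, 0 < T₀ ∧
    ∀ a T : ℝ, T₀ ≤ T →
      ENNReal.ofReal (ρ * T) ≤ volume {τ | τ ∈ Set.Ioc a (a + T) ∧ (fun j => G j τ) ∈ Ω}

lemma visits_of (G : J → ℝ → ℂ) (h : ∀ (v : J → ℂ) (ε : ℝ), 0 < ε →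
    ∃ ρ : ℝ, 0 < ρ ∧ ∃ T₀ : ℝ, 0 < T₀ ∧ ∀ a T : ℝ, T₀ ≤ T →
      ENNReal.ofReal (ρ * T) ≤ volume {τ | τ ∈ Set.Ioc a (a + T) ∧ ∀ j, ‖G j τ - v j‖ < ε}) :
    Visits G := by
  intro Ω hΩ ⟨v, hv⟩
  obtain ⟨ε, hε, hball⟩ := Metric.isOpen_iff.1 hΩ v hv
  obtain ⟨ρ, hρ, T₀, hT₀, h1⟩ := h v ε hε
  refine ⟨ρ, hρ, T₀, hT₀, fun a T hT => (h1 a T hT).trans (measure_mono ?_)⟩
  rintro τ ⟨h2, h3⟩
  refine ⟨h2, hball ?_⟩
  rw [Metric.mem_ball, dist_eq_norm, pi_norm_lt_iff hε]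
  exact h3

/-- The two alternatives exclude each other. -/
lemma not_both {G : J → ℝ → ℂ} (hv : Visits G) {m : J → ℂ} (hm : m ≠ 0) {B : ℝ}
    (hB : ∀ᵐ τ : ℝ, ‖∑ j, m j * G j τ‖ ≤ B) : False := by
  classical
  have hopen : IsOpen {x : J → ℂ | B < ‖∑ j, m j * x j‖} :=
    isOpen_lt continuous_const (by fun_prop)
  have hne : {x : J → ℂ | B < ‖∑ j, m j * x j‖}.Nonempty := by
    obtain ⟨j₀, hj₀⟩ := Function.ne_iff.1 hm
    have hj₀' : m j₀ ≠ 0 := hj₀
    refine ⟨fun j => if j = j₀ then ((|B| + 1 : ℝ) : ℂ) / m j₀ else 0, ?_⟩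
    show B < _
    have h1 : ∑ j, m j * (if j = j₀ then ((|B| + 1 : ℝ) : ℂ) / m j₀ else 0) =
        ((|B| + 1 : ℝ) : ℂ) := by
      simp only [mul_ite, mul_zero]
      rw [sum_ite_eq' univ j₀, if_pos (mem_univ _), mul_div_cancel₀ _ hj₀']
    rw [h1, Complex.norm_real, Real.norm_of_nonneg (by positivity)]
    linarith [le_abs_self B]
  obtain ⟨ρ, hρ, T₀, hT₀, h1⟩ := hv _ hopen hne
  have h2 := h1 0 T₀ le_rfl
  have h3 : volume {τ : ℝ | τ ∈ Set.Ioc 0 (0 + T₀) ∧
      (fun j => G j τ) ∈ {x : J → ℂ | B < ‖∑ j, m j * x j‖}} = 0 := by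
    refine measure_mono_null ?_ hB
    rintro τ ⟨-, h4⟩
    simp only [Set.mem_compl_iff, Set.mem_ofPred_eq, not_le]
    exact h4
  rw [h3, nonpos_iff_eq_zero, ENNReal.ofReal_eq_zero] at h2
  nlinarith [mul_pos hρ hT₀]

end Pool.Agent.Y774.JD
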