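import Pool.Agent.Y774.JD.Dense
import Pool.Agent.Y774.MD.Cont
import Pool.Agent.Y774.MD.Main
import Pool.Agent.Y774.FP.EC2

/-!
# The logarithms of the Euler products
-/

set_option autoImplicit false

namespace Pool.Agent.Y774.JD

open Filter Topology MeasureTheory Finset Pool.Agent.W350.Edge Pool.Agent.Y774.MD Polynomial
open scoped ENNReal

/-- The logarithm of the Euler factor. -/
noncomputable def lt (P : ℕ → ℂ[X]) (p : ℕ) (s : ℂ) : ℂ :=
  if p.Prime then LG (inv (P p)) ((p : ℂ) ^ (-s)) else 0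

/-- The logarithm of the Euler product. -/
noncomputable def LL (P : ℕ → ℂ[X]) (s : ℂ) : ℂ := ∑' p : ℕ, lt P p s

variable {P : ℕ → ℂ[X]} {D : ℕ} {θ C : ℝ} {E : Finset ℕ}

lemma summable_lt (h : IsEuler P D θ C E) {s : ℂ} (hs : 1 < s.re) :
    Summable fun p => lt P p s := by
  classical
  refine (summable_congr_cofinite ?_).1 (h.summable_SS hs)
  have h1 : ∀ᶠ p : ℕ in cofinite, p ∉ E := E.finite_toSet.compl_mem_cofinite
  filter_upwards [h1] with p hp
  unfold SS lt
  by_cases hpp : p.Prime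
  · rw [if_pos ⟨hpp, hp⟩, if_pos hpp]
  · rw [if_neg (fun h => hpp h.1), if_neg hpp]

lemma exp_LL (h : IsEuler P D θ C E) (hg : ∀ p, p.Prime → GoodAt (P p) p) {s : ℂ}
    (hs : 1 < s.re) : Complex.exp (LL P s) = LQ P s := by
  have h1 := (summable_lt h hs).hasSum.cexp
  have h2 : Function.Injective (fun p : Nat.Primes => (p : ℕ)) := Subtype.val_injective
  have h3 := (h2.hasProd_iff (f := Complex.exp ∘ fun p => lt P p s) (fun n hn => by
    simp only [Function.comp_apply, lt]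
    rw [if_neg, Complex.exp_zero]
    intro hn'
    exact hn ⟨⟨n, hn'⟩, rfl⟩)).2 h1
  unfold LQ LL
  refine h3.tprod_eq.symm.trans (tprod_congr fun p => ?_)
  simp only [Function.comp_apply, lt]
  rw [if_pos p.2, (hg p p.2).fac_eq p.2 hs.le]

/-- Continuity of the logarithm of a factor. -/
lemma continuousAt_lt {p : ℕ} (hp : p.Prime) (hg : GoodAt (P p) p) {s : ℂ} (hs : 1 ≤ s.re) :
    ContinuousAt (fun s => lt P p s) s := by
  simp only [lt, if_pos hp]
  obtain ⟨b, hb1, hb2⟩ := hg.radius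
  have hq0 : (0 : ℝ) < p := by exact_mod_cast hp.pos
  have hb0 : 0 < b := lt_trans (by positivity) hb1
  have h1 : ‖(p : ℂ) ^ (-s)‖ ≤ 1 / p := FP.norm_pow_le hp hs
  have h4 : ContinuousAt (LG (inv (P p))) ((p : ℂ) ^ (-s)) := by
    refine continuousAt_LG fun a ha => one_sub_slit ?_
    rw [norm_mul]
    calc ‖a‖ * ‖(p : ℂ) ^ (-s)‖ ≤ b⁻¹ * (1 / p) :=
          mul_le_mul (norm_inv_le hg.1 hb0 hb2 a ha) h1 (norm_nonneg _) (by positivity)
      _ < b⁻¹ * b := mul_lt_mul_of_pos_left hb1 (by positivity)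
      _ = 1 := inv_mul_cancel₀ hb0.ne'
  exact ContinuousAt.comp (f := fun s : ℂ => (p : ℂ) ^ (-s)) (g := LG (inv (P p))) h4
    (continuous_cpow hp.pos).continuousAt

/-- **Boundary values of the logarithm.** -/
theorem log_edge (h : IsEuler P D θ C E) (hg : ∀ p, p.Prime → GoodAt (P p) p) :
    ∀ᵐ τ : ℝ, ∃ g : ℂ, Tendsto (fun σ : ℝ => LL P (1 + σ + τ * Complex.I)) (𝓝[>] 0) (𝓝 g) ∧
      Tendsto (fun x => ∑ p ∈ range x, lt P p (1 + τ * Complex.I)) atTop (𝓝 g) := by
  classical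
  filter_upwards [ae_converge h.block] with τ ⟨A, hA⟩
  set s₀ : ℂ := 1 + τ * Complex.I with hs₀
  set E' := E.filter Nat.Prime with hE'
  set b : ℕ → ℂ := fun n => if n.Prime then cc P E n * Complex.exp (-(τ * Real.log n) * Complex.I)
    else 0 with hb
  set R : ℂ → ℕ → ℂ := fun s n => if n.Prime ∧ n ∉ E then Rm P n s else 0 with hR
  set B : ℂ → ℕ → ℂ := fun s n => if n ∈ E' then lt P n s else 0 with hB
  have hbA : Tendsto (fun x => ∑ n ∈ range x, b n) atTop (𝓝 A) := by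
    refine hA.congr fun x => ?_
    unfold pS
    rw [sum_filter]
  have hFB : ∀ z : ℂ, 0 ≤ z.re → ∀ n, lt P n (1 + z + τ * Complex.I) =
      B (1 + z + τ * Complex.I) n +
      (Complex.exp (-z * Real.log n) * b n + R (1 + z + τ * Complex.I) n) := by
    intro z hz n
    by_cases hn : n.Prime
    · by_cases hnE : n ∈ E
      · have hnE' : n ∈ E' := mem_filter.2 ⟨hnE, hn⟩
        simp only [hB, hb, hR]
        rw [if_pos hnE', if_pos hn, if_neg (by tauto)]
        unfold cc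
        rw [if_pos hnE]
        simp
      · have hnE' : n ∉ E' := fun h => hnE (mem_filter.1 h).1
        simp only [hB, hb, hR]
        rw [if_neg hnE', if_pos hn, if_pos ⟨hn, hnE⟩, zero_add]
        unfold lt
        rw [if_pos hn, h.LG_eq hn hnE z τ]
    · have hnE' : n ∉ E' := fun h => hn (mem_filter.1 h).2
      simp only [hB, hb, hR]
      rw [if_neg hnE', if_neg hn, if_neg (by tauto)]
      unfold lt
      rw [if_neg hn]
      simp
  have hBsum : ∀ s, HasSum (B s) (∑ n ∈ E', B s n) := fun s =>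
    hasSum_sum_of_ne_finset_zero fun n hn => by simp only [hB]; rw [if_neg hn]
  have hRb : ∀ s : ℂ, 1 ≤ s.re → ∀ n, ‖R s n‖ ≤ 2 * D * (n : ℝ) ^ (2 * θ - 2) := by
    intro s hs n
    simp only [hR]
    split_ifs with h1
    · exact h.norm_Rm h1.1 h1.2 hs
    · rw [norm_zero]
      positivity
  have hRsum : ∀ s : ℂ, 1 ≤ s.re → Summable (R s) := fun s hs =>
    Summable.of_norm_bounded (summable_e h) (hRb s hs)
  have hbs : ∀ z : ℂ, 0 < z.re → Summable fun n : ℕ => Complex.exp (-z * Real.log n) * b n := by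
    intro z hz
    refine Summable.of_norm_bounded (h.block.summable hz) fun n => ?_
    simp only [hb]
    split_ifs with hn
    · rw [norm_mul, norm_mul]
      have h1 : ‖Complex.exp (-(τ * Real.log n) * Complex.I)‖ = 1 := norm_ee n τ
      have h2 : ‖Complex.exp (-z * Real.log n)‖ = Real.exp (-z.re * Real.log n) := by
        rw [Complex.norm_exp, Complex.mul_re, Complex.ofReal_re, Complex.ofReal_im, mul_zero,
          sub_zero, Complex.neg_re]
      rw [h1, h2, mul_one]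
    · simp
  have hs₀re : 1 ≤ s₀.re := by simp [hs₀]
  refine ⟨(∑ n ∈ E', B s₀ n) + (A + ∑' n, R s₀ n), ?_, ?_⟩
  · -- the radial limit
    have t1 : Tendsto (fun σ : ℝ => (1 + σ + τ * Complex.I : ℂ)) (𝓝[>] 0) (𝓝 s₀) := by
      have h1 : Continuous fun σ : ℝ => (1 + σ + τ * Complex.I : ℂ) := by fun_prop
      have h2 := (h1.tendsto 0).mono_left (nhdsWithin_le_nhds (s := Set.Ioi (0 : ℝ)))
      simpa [hs₀] using h2
    have t2 : Tendsto (fun σ : ℝ => ∑ n ∈ E', B (1 + σ + τ * Complex.I) n) (𝓝[>] 0)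
        (𝓝 (∑ n ∈ E', B s₀ n)) := by
      refine tendsto_finsetSum _ fun n hn => ?_
      have hn' := mem_filter.1 hn
      simp only [hB, if_pos hn]
      exact (continuousAt_lt hn'.2 (hg n hn'.2) hs₀re).tendsto.comp t1
    have t3 : Tendsto (fun σ : ℝ => ∑' n, R (1 + σ + τ * Complex.I) n) (𝓝[>] 0)
        (𝓝 (∑' n, R s₀ n)) := by
      refine tendsto_tsum_of_dominated_convergence (summable_e h) (fun n => ?_) ?_
      · by_cases hn : n.Prime ∧ n ∉ E
        · simp only [hR, if_pos hn]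
          exact (h.continuousAt_Rm hn.1 hn.2 hs₀re).tendsto.comp t1
        · simp only [hR, if_neg hn]
          exact tendsto_const_nhds
      · filter_upwards [self_mem_nhdsWithin] with σ hσ n
        refine hRb _ ?_ n
        have : (0 : ℝ) < σ := hσ
        simp
        linarith
    have t4 : Tendsto (fun σ : ℝ => ∑' n : ℕ, Complex.exp (-(σ : ℂ) * Real.log n) * b n) (𝓝[>] 0)
        (𝓝 A) := by
      have h1 := abel_stolz b A hbA hbs 1
      refine h1.comp (tendsto_nhdsWithin_iff.2 ⟨?_, ?_⟩)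
      · have h2 : Continuous fun σ : ℝ => (σ : ℂ) := by fun_prop
        have h3 := (h2.tendsto 0).mono_left (nhdsWithin_le_nhds (s := Set.Ioi (0 : ℝ)))
        simpa using h3
      · filter_upwards [self_mem_nhdsWithin] with σ hσ
        have h2 : (0 : ℝ) < σ := hσ
        refine ⟨by simpa using h2, ?_⟩
        rw [Complex.norm_real, Real.norm_of_nonneg h2.le]
        simp
    have t5 := t2.add (t4.add t3)
    refine t5.congr' ?_
    filter_upwards [self_mem_nhdsWithin] with σ hσ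
    have hσ0 : (0 : ℝ) < σ := hσ
    have hre : 1 ≤ (1 + (σ : ℂ) + τ * Complex.I).re := by
      simp
      linarith
    have h7 := (hbs σ (by simpa using hσ0)).hasSum.add (hRsum _ hre).hasSum
    have h8 := (hBsum (1 + σ + τ * Complex.I)).add h7
    unfold LL
    rw [← h8.tsum_eq]
    exact tsum_congr fun n => (hFB σ (by simpa using hσ0.le) n).symm
  · -- the partial sums
    have h2 := (hRsum s₀ hs₀re).hasSum.tendsto_sum_nat
    have h3 := (hBsum s₀).tendsto_sum_nat
    have h4 := h3.add (hbA.add h2)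
    refine h4.congr fun x => ?_
    rw [← sum_add_distrib, ← sum_add_distrib]
    refine sum_congr rfl fun n _ => ?_
    have h5 := hFB 0 le_rfl n
    rw [add_zero] at h5
    rw [hs₀, h5]
    simp

/-- The boundary value of the logarithm. -/
noncomputable def lE (P : ℕ → ℂ[X]) (τ : ℝ) : ℂ :=
  limUnder (𝓝[>] (0 : ℝ)) fun σ : ℝ => LL P (1 + σ + τ * Complex.I)

lemma log_edge' (h : IsEuler P D θ C E) (hg : ∀ p, p.Prime → GoodAt (P p) p) :
    ∀ᵐ τ : ℝ, Tendsto (fun σ : ℝ => LL P (1 + σ + τ * Complex.I)) (𝓝[>] 0) (𝓝 (lE P τ)) ∧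
      Tendsto (fun x => ∑ p ∈ range x, lt P p (1 + τ * Complex.I)) atTop (𝓝 (lE P τ)) := by
  filter_upwards [log_edge h hg] with τ ⟨g, h1, h2⟩
  have h3 : lE P τ = g := h1.limUnder_eq
  rw [h3]
  exact ⟨h1, h2⟩

section forms

variable {κ : Type} [Fintype κ] {J : Type} [Fintype J] {Q : κ → ℕ → ℂ[X]} {D : κ → ℕ}
  {θ C : κ → ℝ} {E : Finset ℕ}

/-- The forms in the logarithms of the Euler factors. -/
noncomputable def ff (Q : κ → ℕ → ℂ[X]) (t : κ → ℝ) (A : J → κ → ℂ) (j : J) (p : ℕ) (u : ℂ) : ℂ :=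
  ∑ k, A j k * LG (inv (Q k p)) (rot p (t k) * ((p : ℂ)⁻¹ * u))

/-- The coefficients of the forms. -/
noncomputable def cf (Q : κ → ℕ → ℂ[X]) (E : Finset ℕ) (t : κ → ℝ) (A : J → κ → ℂ) (j : J)
    (p : ℕ) : ℂ := ∑ k, A j k * (cc (Q k) E p * rot p (t k))

lemma exists_ee {p : ℕ} (hp : p.Prime) {u : ℂ} (hu : ‖u‖ = 1) : ∃ τ : ℝ, ee p τ = u := by
  have hl : 0 < Real.log p := Real.log_pos (by exact_mod_cast hp.one_lt)
  refine ⟨-(Complex.arg u) / Real.log p, ?_⟩
  unfold ee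
  have h1 : -(((-(Complex.arg u) / Real.log p : ℝ) : ℂ) * (Real.log p : ℂ)) * Complex.I =
      Complex.arg u * Complex.I := by
    have hl' : (Real.log p : ℂ) ≠ 0 := by exact_mod_cast hl.ne'
    rw [Complex.ofReal_div, Complex.ofReal_neg]
    field_simp
  rw [h1]
  have h2 := Complex.norm_mul_exp_arg_mul_I u
  rw [hu, Complex.ofReal_one, one_mul] at h2
  exact h2

lemma inv_mul_ee {p : ℕ} (hp : p.Prime) (τ : ℝ) :
    (p : ℂ)⁻¹ * ee p τ = (p : ℂ) ^ (-(1 + (τ : ℂ) * Complex.I)) := by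
  rw [natCast_cpow_eq hp.pos]
  unfold ee
  have h4 : ((p : ℂ))⁻¹ = Complex.exp (-((Real.log p : ℝ) : ℂ)) := by
    rw [Complex.exp_neg, ← Complex.ofReal_exp, Real.exp_log (by exact_mod_cast hp.pos),
      Complex.ofReal_natCast]
  rw [h4, ← Complex.exp_add]
  congr 1
  ring

lemma bb_mono {c : ℕ → ℂ} {C C' : ℝ} (h : BlockBound c C) (hC : C ≤ C') :
    BlockBound c C' := by
  intro k hk F hF
  exact (h k hk F hF).trans (div_le_div_of_nonneg_right hC (Nat.cast_nonneg _))

omit [Fintype J] in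
/-- The form at `p^{-iτ}`. -/
lemma ff_ee {p : ℕ} (hp : p.Prime) (t : κ → ℝ) (A : J → κ → ℂ) (j : J) (τ : ℝ) :
    ff Q t A j p (ee p τ) = ∑ k, A j k * lt (Q k) p (1 + ((τ + t k : ℝ) : ℂ) * Complex.I) := by
  unfold ff
  refine sum_congr rfl fun k _ => ?_
  rw [inv_mul_ee hp, rot_mul hp.pos]
  unfold lt
  rw [if_pos hp]
  congr 4
  push_cast
  ring

lemma fam (h : ∀ k, IsEuler (Q k) (D k) (θ k) (C k) E)
    (hg : ∀ k p, p.Prime → GoodAt (Q k p) p) (t : κ → ℝ) (A : J → κ → ℂ) :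
    Fam (ff Q t A) (cf Q E t A)
      (∑ j, ∑ k, ‖A j k‖ * (2 * Real.exp 1 * C k + CC))
      (fun p => ∑ j, ∑ k, ‖A j k‖ * (2 * D k * (p : ℝ) ^ (2 * θ k - 2))) E where
  bb := by
    intro j
    have h1 : BlockBound (cf Q E t A j) (∑ k, ‖A j k‖ * (2 * Real.exp 1 * C k + CC)) :=
      BlockBound.sum _ fun k _ => ((h k).block.twist (t k)).smul _
    refine bb_mono h1 ?_
    have h0 : ∀ j k, 0 ≤ ‖A j k‖ * (2 * Real.exp 1 * C k + CC) := fun j k => by
      have h2 := (h k).block.nonneg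
      positivity
    exact single_le_sum (f := fun j => ∑ k, ‖A j k‖ * (2 * Real.exp 1 * C k + CC))
      (fun j _ => sum_nonneg fun k _ => h0 j k) (mem_univ j)
  he := summable_sum fun j _ => summable_sum fun k _ => (summable_e (h k)).mul_left _
  e0 := fun p => sum_nonneg fun j _ => sum_nonneg fun k _ => by positivity
  cont := by
    intro j p hp u hu
    have hu1 : ‖u‖ = 1 := by simpa using hu
    have hp0 : (0 : ℝ) < p := by exact_mod_cast hp.pos
    refine ContinuousAt.continuousWithinAt ?_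
    unfold ff
    refine tendsto_finsetSum _ fun k _ => ?_
    have h2 : ContinuousAt (fun u : ℂ => LG (inv (Q k p)) (rot p (t k) * ((p : ℂ)⁻¹ * u))) u := by
      obtain ⟨b, hb1, hb2⟩ := (hg k p hp).radius
      have hb0 : 0 < b := lt_trans (by positivity) hb1
      have h4 : ContinuousAt (LG (inv (Q k p))) (rot p (t k) * ((p : ℂ)⁻¹ * u)) := by
        refine continuousAt_LG fun a ha => one_sub_slit ?_
        rw [norm_mul, norm_mul, norm_mul, norm_rot, one_mul, hu1, mul_one, norm_inv,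
          Complex.norm_natCast, ← one_div]
        calc ‖a‖ * (1 / (p : ℝ)) ≤ b⁻¹ * (1 / p) :=
              mul_le_mul_of_nonneg_right (norm_inv_le (hg k p hp).1 hb0 hb2 a ha) (by positivity)
          _ < b⁻¹ * b := mul_lt_mul_of_pos_left hb1 (by positivity)
          _ = 1 := inv_mul_cancel₀ hb0.ne'
      exact ContinuousAt.comp (f := fun u : ℂ => rot p (t k) * ((p : ℂ)⁻¹ * u))
        (g := LG (inv (Q k p))) h4 (by fun_prop)
    exact (continuousAt_const.mul h2)
  hr := by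
    intro j p hp hpE u hu
    obtain ⟨τ, rfl⟩ := exists_ee hp hu
    rw [ff_ee hp]
    unfold cf
    rw [sum_mul, ← sum_sub_distrib]
    have h1 : ∀ k, ‖A j k * lt (Q k) p (1 + ((τ + t k : ℝ) : ℂ) * Complex.I) -
        A j k * (cc (Q k) E p * rot p (t k)) * ee p τ‖ ≤
        ‖A j k‖ * (2 * D k * (p : ℝ) ^ (2 * θ k - 2)) := by
      intro k
      have h2 := (h k).LG_eq hp hpE 0 (τ + t k)
      rw [add_zero, neg_zero, zero_mul, Complex.exp_zero, one_mul] at h2
      unfold lt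
      rw [if_pos hp, h2]
      have h3 : Complex.exp (-(((τ + t k : ℝ) : ℂ) * Real.log p) * Complex.I) =
          rot p (t k) * ee p τ := by
        unfold rot ee
        rw [← Complex.exp_add]
        congr 1
        push_cast
        ring
      rw [h3]
      have h4 : A j k * (cc (Q k) E p * (rot p (t k) * ee p τ) +
          Rm (Q k) p (1 + ((τ + t k : ℝ) : ℂ) * Complex.I)) -
          A j k * (cc (Q k) E p * rot p (t k)) * ee p τ =
          A j k * Rm (Q k) p (1 + ((τ + t k : ℝ) : ℂ) * Complex.I) := by ring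
      rw [h4, norm_mul]
      exact mul_le_mul_of_nonneg_left ((h k).norm_Rm hp hpE (by simp)) (norm_nonneg _)
    refine (norm_sum_le_of_le _ fun k _ => h1 k).trans ?_
    exact single_le_sum (f := fun j => ∑ k, ‖A j k‖ * (2 * D k * (p : ℝ) ^ (2 * θ k - 2)))
      (fun j _ => sum_nonneg fun k _ => by positivity) (mem_univ j)

/-- The boundary values of the forms. -/
noncomputable def GF (Q : κ → ℕ → ℂ[X]) (t : κ → ℝ) (A : J → κ → ℂ) (j : J) (τ : ℝ) : ℂ :=
  ∑ k, A j k * lE (Q k) (τ + t k)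

lemma tendsto_GF (h : ∀ k, IsEuler (Q k) (D k) (θ k) (C k) E)
    (hg : ∀ k p, p.Prime → GoodAt (Q k p) p) (t : κ → ℝ) (A : J → κ → ℂ) (j : J) :
    ∀ᵐ τ : ℝ, Tendsto (fun x => fS (ff Q t A) j x τ) atTop (𝓝 (GF Q t A j τ)) := by
  have h1 : ∀ᵐ τ : ℝ, ∀ k, Tendsto
      (fun x => ∑ p ∈ range x, lt (Q k) p (1 + ((τ + t k : ℝ) : ℂ) * Complex.I)) atTop
      (𝓝 (lE (Q k) (τ + t k))) := by
    rw [ae_all_iff]
    intro k
    filter_upwards [ae_shift (log_edge' (h k) (hg k)) (t k)] with τ hτ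
    exact hτ.2
  filter_upwards [h1] with τ hτ
  unfold GF
  have h2 : Tendsto (fun x => ∑ k, A j k *
      ∑ p ∈ range x, lt (Q k) p (1 + ((τ + t k : ℝ) : ℂ) * Complex.I)) atTop
      (𝓝 (∑ k, A j k * lE (Q k) (τ + t k))) :=
    tendsto_finsetSum _ fun k _ => (hτ k).const_mul _
  refine h2.congr fun x => ?_
  unfold fS
  simp_rw [mul_sum]
  rw [sum_comm, sum_filter]
  refine sum_congr rfl fun p _ => ?_
  split_ifs with hp
  · rw [ff_ee hp]
  · refine sum_eq_zero fun k _ => ?_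
    unfold lt
    rw [if_neg hp, mul_zero]

/-- **Denseness of the forms.** -/
theorem dense_forms (h : ∀ k, IsEuler (Q k) (D k) (θ k) (C k) E)
    (hg : ∀ k p, p.Prime → GoodAt (Q k p) p) (t : κ → ℝ) (A : J → κ → ℂ)
    (hdiv : ∀ m : J → ℂ, m ≠ 0 →
      ¬ Summable fun p : ℕ => if p.Prime then ‖∑ j, m j * cf Q E t A j p‖ else 0)
    (v : J → ℂ) {ε : ℝ} (hε : 0 < ε) :
    ∃ ρ : ℝ, 0 < ρ ∧ ∃ T₀ : ℝ, 0 < T₀ ∧ ∀ a T : ℝ, T₀ ≤ T →
      ENNReal.ofReal (ρ * T) ≤
        volume {τ | τ ∈ Set.Ioc a (a + T) ∧ ∀ j, ‖GF Q t A j τ - v j‖ < ε} :=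
  dense (fam h hg t A) (tendsto_GF h hg t A) hdiv v hε

end forms

end Pool.Agent.Y774.JD
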